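import Pool.Agent.H270R3.CT.Main
import Pool.Agent.H417B.G7
import Pool.Agent.H417B.G9b
import Pool.Agent.H417B.C12H
import Pool.Agent.H417B.D8R
import Pool.Agent.H712R5.BO.B1
import Pool.Agent.H712R5.BO.B2a
import Pool.Agent.H712R5.BO.B2
import Pool.Agent.H712R5.BO.B2c
import Pool.Agent.H712R5.BO.B3
import Pool.Agent.H712R5.BO.B4v
import Pool.Agent.H712R5.BO.B4u
import Pool.Agent.H712R5.BO.B4
import Pool.Agent.H712R5.BO.B5
import Pool.Agent.H712R5.BO.B6
import Pool.Agent.H712R5.BO.B7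
import Pool.Agent.H712R5.BO.B8
import Pool.Agent.H712R5.BO.B9
import Pool.Agent.H712R5.BO.B10
import Pool.Agent.H712R5.BO.B11
import Pool.Agent.H712R5.BO.B12
import Pool.Agent.H712R5.BO.B13
import Pool.Agent.H712R5.BO.C10
import Pool.Agent.H712R5.BO.C11
import Pool.Agent.H712R5.BO.D1
import Pool.Agent.H712R5.BO.D2
import Pool.Agent.H712R5.BO.D3
import Pool.Agent.H712R5.BO.D4
import Pool.Agent.H712R5.BO.D5
import Pool.Agent.H712R5.BO.D6
import Pool.Agent.H712R5.BO.D7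

/-!
The abstract theorem: the limit of `(1/k) log |exp (k e^{2πiθ} T)|²` exists strongly for almost every `θ`
and is not scalar for all of them.
-/

set_option autoImplicit false
open scoped ComplexConjugate InnerProductSpace Topology
open Filter MeasureTheory NormedSpace

namespace Pool.Agent.H270R3.CT
open Pool.Agent.H712R5.BO

theorem ck_pos (k : ℕ) (_hk : 1 ≤ k) : 0 < ck k := by
  unfold ck
  positivity

section
variable {H : Type} [NormedAddCommGroup H] [InnerProductSpace ℂ H] [CompleteSpace H]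
  {ι : Type} [Fintype ι]

/-- hyperinvariant subspaces -/
def HasHyp (T : H →L[ℂ] H) : Prop := ∃ V : Submodule ℂ H, IsClosed (V : Set H) ∧ V ≠ ⊥ ∧ V ≠ ⊤ ∧
    ∀ R : H →L[ℂ] H, R * T = T * R → ∀ x ∈ V, R x ∈ V

theorem n2_const {N : StarSubalgebra ℂ (H →L[ℂ] H)} {u : unitary (H →L[ℂ] H)} {v : ι → H}
    (hD : Dt N u v) (A : Alg N u) (G : H →L[ℂ] H) (hG : G ∈ N) (hG1 : ‖G‖ ≤ 1) (j : ι) :
    ∫ θ, ‖evG N u θ A (G (v j))‖ ^ 2 ∂AddCircle.haarAddCircle ≤ (n2 (tauG N u v) A) ^ 2 := by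
  have hB := t_B1 (Alg N u) (tauG N u v) (trst hD)
  have hst : ∀ a : Alg N u, n2 (tauG N u v) (star a) = n2 (tauG N u v) a := hB.2.2.2.2.1
  set Gt : Alg N u := ⟨ContinuousMap.const _ G, Wd_subset_Alg N u (Wd_const N u G hG)⟩ with hGt
  have hGe : ∀ θ, evG N u θ Gt = G := fun θ => rfl
  have h1 : ∫ θ, ‖evG N u θ A (G (v j))‖ ^ 2 ∂AddCircle.haarAddCircle
      ≤ (n2 (tauG N u v) (A * Gt)) ^ 2 := by
    rw [n2_sq]
    have h2 : ∫ θ, ‖evG N u θ A (G (v j))‖ ^ 2 ∂AddCircle.haarAddCircle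
        = ∫ θ, ‖evG N u θ (A * Gt) (v j)‖ ^ 2 ∂AddCircle.haarAddCircle := by
      refine integral_congr_ae (Eventually.of_forall fun θ => ?_)
      show ‖evG N u θ A (G (v j))‖ ^ 2 = ‖evG N u θ (A * Gt) (v j)‖ ^ 2
      rw [map_mul, hGe]
      rfl
    rw [h2]
    exact Finset.single_le_sum
      (f := fun j => ∫ θ, ‖evG N u θ (A * Gt) (v j)‖ ^ 2 ∂AddCircle.haarAddCircle)
      (fun j _ => integral_nonneg (fun θ => by positivity)) (Finset.mem_univ j)
  refine h1.trans ?_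
  rw [← hst (A * Gt), star_mul, ← hst A, n2_sq, n2_sq]
  refine Finset.sum_le_sum fun i _ => ?_
  refine integral_mono (int_C _ ?_) (int_C _ ?_) fun θ => ?_
  · exact ((continuous_evG N u _).clm_apply continuous_const).norm.pow 2
  · exact ((continuous_evG N u _).clm_apply continuous_const).norm.pow 2
  · show ‖evG N u θ (star Gt * star A) (v i)‖ ^ 2 ≤ ‖evG N u θ (star A) (v i)‖ ^ 2
    rw [map_mul, map_star (evG N u θ) Gt, hGe]
    have h3 : ‖(star G) (evG N u θ (star A) (v i))‖ ≤ ‖evG N u θ (star A) (v i)‖ := by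
      calc ‖(star G) (evG N u θ (star A) (v i))‖ ≤ ‖star G‖ * ‖evG N u θ (star A) (v i)‖ :=
            (star G).le_opNorm _
        _ ≤ 1 * ‖evG N u θ (star A) (v i)‖ := by
            rw [norm_star]; gcongr
        _ = _ := one_mul _
    exact pow_le_pow_left₀ (norm_nonneg _) h3 2

end

end Pool.Agent.H270R3.CT
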