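import Pool.Agent.H270R3.CT.Abs

set_option autoImplicit false
open scoped ComplexConjugate InnerProductSpace Topology
open Filter MeasureTheory NormedSpace

namespace Pool.Agent.H270R3.CT
open Pool.Agent.H712R5.BO Pool.Agent.H417B

section
variable {H : Type} [NormedAddCommGroup H] [InnerProductSpace ℂ H] [CompleteSpace H]
  {ι : Type} [Fintype ι]

/-- the abstract theorem, normalised -/
theorem abs_scaled [TopologicalSpace.SeparableSpace H] {N : StarSubalgebra ℂ (H →L[ℂ] H)}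
    {u : unitary (H →L[ℂ] H)} {v : ι → H} (hD : Dt N u v) (T : H →L[ℂ] H)
    (hT : T * star (u : H →L[ℂ] H) ∈ N)
    (hdet : ∀ (k : ℕ) (δ : ℝ), 1 ≤ k → 0 < δ →
      0 ≤ (∑ j, ⟪v j, CFC.log (algebraMap ℝ (H →L[ℂ] H) δ
        + star (T ^ k) * T ^ k) (v j)⟫_ℂ).re) :
    HasHyp T := by
  set S : CT.Alg N u := CT.TtG N u T hT with hS
  have hτ : TrSt (CT.tauG N u v) := trst hD
  have hB2 : P_B2 := t_B2 t_B2a t_B1
  have hB3 : P_B3 := t_B3 t_B1 hB2 t_B2c
  have hB4u : P_B4u := t_B4u t_B1 t_B4v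
  have hB4 : P_B4 := t_B4 t_B1 hB3 hB4u
  have hB5 : P_B5 := t_B5 t_B1 hB4 hB4u
  have hB6 : P_B6 := t_B6 t_B1 hB4u hB5
  have hB8 : P_B8 := t_B8 hB6 (t_B7 t_B1)
  have hB9 : P_B9 := t_B9 t_B1 hB4u hB8
  have hB12 : P_B12 := t_B12 t_B1 t_B10 (t_B11 hB4 hB9)
  have hB13 : P_B13 := t_B13 hB2
  have hD2 : P_D2 := t_D2 hB2 t_D1
  have hD7 : P_D7 := t_D7 hB4u t_D1 (t_D3 hD2) (t_D4 t_B1) (t_D6 t_D5)
  have hC12 : P_C12H := t_C12H t_B4v t_C10 t_C11
  -- lower bound
  have hlow : ∀ k M : ℕ, 1 ≤ k → 1 ≤ M →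
      0 ≤ 2 * Real.log (ck k) + 4 * Real.pi * k * ‖T‖ / M + M * Real.log 2
        + M * NN (CT.tauG N u v) (ex (k : ℂ) S) := by
    intro k M hk hM
    have h1 := hD7 (CT.Alg N u) (CT.tauG N u v) hτ S k M hk hM
    have hck := ck_pos k hk
    have h2 := tau_log N u v T hT k ((ck k) ^ 2) (by positivity)
    have h3 := hdet k ((ck k) ^ 2) hk (by positivity)
    rw [h2] at h1
    have h4 : ∑ j : Fin M, NN (CT.tauG N u v) (ex (k * rt M j) S)
        = M * NN (CT.tauG N u v) (ex (k : ℂ) S) := by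
      have h7 : ∀ j : Fin M, NN (CT.tauG N u v) (ex (k * rt M j) S)
          = NN (CT.tauG N u v) (ex (k : ℂ) S) := fun j => NN_rot N u v T hT k M j
      simp_rw [h7]
      simp
    rw [h4] at h1
    have h5 : ‖S‖ ≤ ‖T‖ := norm_Tt N u T hT
    have h6 : 4 * Real.pi * k * ‖S‖ / M ≤ 4 * Real.pi * k * ‖T‖ / M := by
      have : (0:ℝ) < M := by exact_mod_cast hM
      gcongr
    linarith
  obtain ⟨c, hc, K, hK⟩ := t_D8R ‖T‖ (norm_nonneg _)
    (fun k => NN (CT.tauG N u v) (ex (k : ℂ) S)) hlow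
  obtain ⟨w, hwG, hwt⟩ := exists_w hD
  -- the operators and the functions
  set AA : ℕ → CT.Alg N u := fun k => (1/(k:ℝ)) • Lg (ex (k : ℂ) S) with hAA
  set y : ℕ → ℤ → UnitAddCircle → H := fun k r θ => CT.evG N u θ (AA k) (w r) with hy
  have hycont : ∀ k r, Continuous (y k r) := by
    intro k r
    exact (CT.continuous_evG N u (AA k)).clm_apply continuous_const
  have hyd : ∀ k m r, ∫ θ, ‖y k r θ - y m r θ‖ ^ 2 ∂AddCircle.haarAddCircle
      ≤ (n2 (CT.tauG N u v) (AA k - AA m)) ^ 2 := by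
    intro k m r
    obtain ⟨G, hG, hG1, j, hj⟩ := hwG r
    have h1 := n2_const hD (AA k - AA m) G hG hG1 j
    rw [← hj] at h1
    refine le_trans (le_of_eq ?_) h1
    refine integral_congr_ae (Eventually.of_forall (fun θ => ?_))
    show ‖y k r θ - y m r θ‖ ^ 2 = ‖CT.evG N u θ (AA k - AA m) (w r)‖ ^ 2
    rw [map_sub]
    rfl
  have hcauchy : ∀ ε > (0:ℝ), ∃ K : ℕ, ∀ k ≥ K, ∀ m ≥ K, ∀ r : ℤ,
      ∫ θ, ‖y k r θ - y m r θ‖ ^ 2 ∂AddCircle.haarAddCircle < ε := by
    intro ε hε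
    obtain ⟨K', _, hK'⟩ := hB12 (CT.Alg N u) (CT.tauG N u v) hτ S (Real.sqrt ε)
      (Real.sqrt_pos.mpr hε)
    refine ⟨K', fun k hk m hm r => lt_of_le_of_lt (hyd k m r) ?_⟩
    have h1 := hK' k hk m hm
    have h0 : 0 ≤ n2 (CT.tauG N u v) (AA k - AA m) := Real.sqrt_nonneg _
    calc _ < (Real.sqrt ε) ^ 2 := by
          apply pow_lt_pow_left₀ h1 h0 two_ne_zero
      _ = ε := Real.sq_sqrt hε.le
  obtain ⟨φ, y', hφ, -, hae, -⟩ := t_G7 H y hycont hcauchy
  set K0 : ℕ := max K 1 with hK0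
  set ψ : ℕ → ℕ := fun i => φ (i + K0) with hψ
  have hψmono : StrictMono ψ := fun i j hij => hφ (by omega)
  have hψK : ∀ i, K0 ≤ ψ i := fun i => le_trans (Nat.le_add_left K0 i) (hφ.id_le (i + K0))
  have hψ1 : ∀ i, 1 ≤ ψ i := fun i => le_trans (le_max_right _ _) (hψK i)
  have hae' : ∀ᵐ θ ∂AddCircle.haarAddCircle, ∀ r,
      Tendsto (fun i => y (ψ i) r θ) atTop (𝓝 (y' r θ)) := by
    filter_upwards [hae] with θ hθ r
    exact (hθ r).comp (tendsto_add_atTop_nat K0)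
  have hAform : ∀ θ i, CT.evG N u θ (AA (ψ i))
      = (1/(ψ i:ℝ)) • Lg (ex (ψ i : ℂ) ((fourier 1 θ : ℂ) • T)) := by
    intro θ i
    show (1/(ψ i:ℝ)) • CT.evG N u θ (Lg (ex (ψ i : ℂ) S)) = _
    rw [(ev_Lg N u T hT (ψ i) θ).1]
  have hAnorm : ∀ θ i, ‖CT.evG N u θ (AA (ψ i))‖ ≤ 2 * ‖T‖ := by
    intro θ i
    rw [hAform, norm_smul]
    have h1 := (ev_Lg N u T hT (ψ i) θ).2
    have h4 : (0:ℝ) < ψ i := by exact_mod_cast (hψ1 i)
    rw [Real.norm_eq_abs, abs_of_pos (by positivity)]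
    calc 1 / (ψ i : ℝ) * _ ≤ 1 / (ψ i : ℝ) * (2 * ψ i * ‖T‖) := by gcongr
      _ = 2 * ‖T‖ := by field_simp
  -- the trace vanishes
  have htr : ∀ k : ℕ, (CT.tauG N u v (Lg (ex (k : ℂ) S))).re = 0 := by
    intro k
    have h1 := hB13 (CT.Alg N u) (CT.tauG N u v) hτ ((k : ℂ) • S)
    have h2 : CT.tauG N u v S = 0 := tau_T N u v T hT
    have h3 : CT.tauG N u v ((k : ℂ) • S) = 0 := by
      have := (CT.tauG N u v).map_smul (k : ℂ) S
      rw [this, h2, smul_zero]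
    rw [h3] at h1
    simpa [ex] using h1
  have hsaA : ∀ i, IsSelfAdjoint (AA (ψ i)) := by
    intro i
    exact IsSelfAdjoint.smul (IsSelfAdjoint.all _) ((t_B4v (CT.Alg N u)).1 _)
  have htrA : ∀ i, CT.tauG N u v (AA (ψ i)) = 0 := by
    intro i
    apply Complex.ext
    · have h1 : AA (ψ i) = ((1/(ψ i:ℝ) : ℝ) : ℂ) • Lg (ex (ψ i : ℂ) S) := by
        rw [Complex.coe_smul]
      have h2 := (CT.tauG N u v).map_smul ((1/(ψ i:ℝ) : ℝ) : ℂ) (Lg (ex (ψ i : ℂ) S))
      rw [h1, h2, smul_eq_mul, Complex.re_ofReal_mul, htr, mul_zero]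
      rfl
    · have h1 := hτ.herm (AA (ψ i))
      rw [(hsaA i).star_eq] at h1
      have h2 := congrArg Complex.im h1
      rw [Complex.conj_im] at h2
      show (CT.tauG N u v (AA (ψ i))).im = 0
      linarith
  have hlowL2 : ∀ i, c ^ 2 ≤ ∑ j, ∫ θ, ‖CT.evG N u θ (AA (ψ i)) (v j)‖ ^ 2
      ∂AddCircle.haarAddCircle := by
    intro i
    rw [← n2_sq]
    have h1 : c ≤ n2 (CT.tauG N u v) (AA (ψ i)) := by
      have h2 := hK (ψ i) (le_trans (le_max_left _ _) (hψK i))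
      have h3 : n2 (CT.tauG N u v) (AA (ψ i))
          = |(1/(ψ i:ℝ))| * NN (CT.tauG N u v) (ex (ψ i : ℂ) S) :=
        (t_B1 (CT.Alg N u) (CT.tauG N u v) hτ).2.2.2.1 _ _
      rw [h3]
      have h4 : (0:ℝ) < ψ i := by exact_mod_cast (hψ1 i)
      rw [abs_of_pos (by positivity)]
      calc c = 1 / (ψ i : ℝ) * (c * ψ i) := by field_simp
        _ ≤ _ := by gcongr
    gcongr
  -- suppose there is no hyperinvariant subspace
  by_contra hno
  have hscal : ∀ᵐ θ ∂AddCircle.haarAddCircle, ∃ z : ℂ, ∀ x : H,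
      Tendsto (fun i => CT.evG N u θ (AA (ψ i)) x) atTop (𝓝 (z • x)) := by
    filter_upwards [hae'] with θ hθ
    obtain ⟨X, hX⟩ := strong_lim w hwt (fun i => CT.evG N u θ (AA (ψ i))) (2*‖T‖) (hAnorm θ)
      (fun r => ⟨_, hθ r⟩)
    by_cases hs : ∃ z : ℂ, X = z • 1
    · obtain ⟨z, hz⟩ := hs
      refine ⟨z, fun x => ?_⟩
      have := hX x
      rw [hz] at this
      simpa using this
    · exfalso
      apply hno
      obtain ⟨V, hVc, hVb, hVt, hVi⟩ := hC12 H ((fourier 1 θ : ℂ) • T) ψ hψmono hψ1 X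
        (fun v => by
          have h1 := hX v
          simp_rw [hAform] at h1
          exact h1) hs
      refine ⟨V, hVc, hVb, hVt, fun R hR x hx => hVi R ?_ x hx⟩
      rw [mul_smul_comm, smul_mul_assoc, hR]
  classical
  let z : UnitAddCircle → ℂ := fun θ => if h : ∃ z : ℂ, ∀ x : H,
      Tendsto (fun i => CT.evG N u θ (AA (ψ i)) x) atTop (𝓝 (z • x)) then h.choose else 0
  have hz : ∀ᵐ θ ∂AddCircle.haarAddCircle, ∀ x : H,
      Tendsto (fun i => CT.evG N u θ (AA (ψ i)) x) atTop (𝓝 (z θ • x)) := by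
    filter_upwards [hscal] with θ hθ
    have : z θ = hθ.choose := dif_pos hθ
    rw [this]
    exact hθ.choose_spec
  set q : ℕ → UnitAddCircle → ℂ := fun i θ => ∑ j, ⟪v j, CT.evG N u θ (AA (ψ i)) (v j)⟫_ℂ with hq
  have hqc : ∀ i, Continuous (q i) := fun i => continuous_finset_sum _ fun j _ =>
    continuous_const.inner ((CT.continuous_evG N u _).clm_apply continuous_const)
  have hqz : ∀ᵐ θ ∂AddCircle.haarAddCircle, Tendsto (fun i => q i θ) atTop (𝓝 (z θ)) := by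
    filter_upwards [hz] with θ hθ
    have h1 : Tendsto (fun i => q i θ) atTop (𝓝 (∑ j, ⟪v j, z θ • v j⟫_ℂ)) :=
      tendsto_finset_sum _ fun j _ => (tendsto_const_nhds).inner (hθ (v j))
    have h2 : ∑ j, ⟪v j, z θ • v j⟫_ℂ = z θ := by
      simp only [inner_smul_right, inner_self_eq_norm_sq_to_K, ← Finset.mul_sum]
      have h3 : ∑ j, ((‖v j‖ : ℂ)) ^ 2 = 1 := by
        have := hD.nm
        exact_mod_cast this
      have h4 : (∑ j, (((‖v j‖ : ℝ) : ℂ)) ^ 2) = 1 := h3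
      rw [show (∑ i, (RCLike.ofReal ‖v i‖ : ℂ) ^ 2) = ∑ j, (((‖v j‖ : ℝ) : ℂ)) ^ 2 from rfl, h4,
        mul_one]
    rwa [h2] at h1
  have hqb : ∀ i θ, ‖q i θ‖ ≤ 2 * ‖T‖ := by
    intro i θ
    calc ‖q i θ‖ ≤ ∑ j, ‖⟪v j, CT.evG N u θ (AA (ψ i)) (v j)⟫_ℂ‖ := norm_sum_le _ _
      _ ≤ ∑ j, (2 * ‖T‖) * ‖v j‖ ^ 2 := by
          refine Finset.sum_le_sum fun j _ => ?_
          calc _ ≤ ‖v j‖ * ‖CT.evG N u θ (AA (ψ i)) (v j)‖ := norm_inner_le_norm _ _
            _ ≤ ‖v j‖ * ((2 * ‖T‖) * ‖v j‖) := by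
                gcongr
                exact ((CT.evG N u θ (AA (ψ i))).le_opNorm _).trans (by
                  gcongr
                  exact hAnorm θ i)
            _ = _ := by ring
      _ = 2 * ‖T‖ := by rw [← Finset.mul_sum, hD.nm, mul_one]
  have hzm : AEStronglyMeasurable z AddCircle.haarAddCircle :=
    aestronglyMeasurable_of_tendsto_ae atTop (fun i => (hqc i).aestronglyMeasurable) hqz
  have hzb : ∀ᵐ θ ∂AddCircle.haarAddCircle, ‖z θ‖ ≤ 2 * ‖T‖ := by
    filter_upwards [hqz] with θ hθ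
    exact le_of_tendsto hθ.norm (Eventually.of_forall fun i => hqb i θ)
  have hzL : MemLp z 2 AddCircle.haarAddCircle := MemLp.of_bound hzm (2 * ‖T‖) hzb
  -- the functionals `FC`
  have hFC : ∀ (n : ℤ) (x y : H), Tendsto (fun i => FC n x y ((AA (ψ i) : CT.Alg N u) :
      C(UnitAddCircle, H →L[ℂ] H))) atTop
      (𝓝 ((∫ θ, (fourier (-n) θ : ℂ) * z θ ∂AddCircle.haarAddCircle) * ⟪x, y⟫_ℂ)) := by
    intro n x y
    rw [← integral_mul_const]
    simp only [FC_apply]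
    refine tendsto_integral_of_dominated_convergence (fun _ => 2 * ‖T‖ * (‖x‖ * ‖y‖)) ?_ ?_ ?_ ?_
    · intro i
      exact ((fourier (-n)).continuous.mul (continuous_const.inner
        (((AA (ψ i) : CT.Alg N u) : C(UnitAddCircle, H →L[ℂ] H)).continuous.clm_apply
          continuous_const))).aestronglyMeasurable
    · exact integrable_const _
    · intro i
      refine Eventually.of_forall fun θ => ?_
      have h4 : ‖(fourier (-n) θ : ℂ)‖ = 1 := by
        rw [fourier_apply]; exact Circle.norm_coe _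
      rw [norm_mul, h4, one_mul]
      have h5 := hAnorm θ i
      calc ‖⟪x, (CT.evG N u θ (AA (ψ i))) y⟫_ℂ‖ ≤ ‖x‖ * ‖(CT.evG N u θ (AA (ψ i))) y‖ :=
            norm_inner_le_norm _ _
        _ ≤ ‖x‖ * ((2 * ‖T‖) * ‖y‖) := by
            gcongr
            exact ((CT.evG N u θ (AA (ψ i))).le_opNorm _).trans (by gcongr)
        _ = 2 * ‖T‖ * (‖x‖ * ‖y‖) := by ring
    · filter_upwards [hz] with θ hθ
      have h1 : Tendsto (fun i => ⟪x, CT.evG N u θ (AA (ψ i)) y⟫_ℂ) atTop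
          (𝓝 ⟪x, z θ • y⟫_ℂ) := (tendsto_const_nhds).inner (hθ y)
      rw [inner_smul_right] at h1
      have h2 := h1.const_mul (fourier (-n) θ : ℂ)
      rw [← mul_assoc] at h2
      exact h2
  have hI : ∀ n : ℤ, n ≠ 0 → ∫ θ, (fourier (-n) θ : ℂ) * z θ ∂AddCircle.haarAddCircle = 0 := by
    intro n hn
    obtain ⟨cc, hcc, hne⟩ := hD.ap n hn
    by_contra hI0
    apply hne
    set p : H →L[ℂ] H := ((u ^ n : unitary (H →L[ℂ] H)) : H →L[ℂ] H) with hp
    have hqp : star p * p = 1 := (Unitary.mem_iff.mp (u ^ n).2).1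
    have key : ∀ x y : H, ⟪x, cc y⟫_ℂ = ⟪x, (p * cc * star p) y⟫_ℂ := by
      intro x y
      have h1 := hFC n x (cc y)
      have h2 := hFC n (star (p * cc * star p) x) y
      have h3 : (fun i => FC n x (cc y) ((AA (ψ i) : CT.Alg N u) : C(UnitAddCircle, H →L[ℂ] H)))
          = fun i => FC n (star (p * cc * star p) x) y ((AA (ψ i) : CT.Alg N u) :
            C(UnitAddCircle, H →L[ℂ] H)) := by
        funext i
        exact FC_comm hD n cc hcc x y _ (AA (ψ i)).2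
      rw [h3] at h1
      have h4 := tendsto_nhds_unique h1 h2
      have h5 := mul_left_cancel₀ hI0 h4
      rw [h5, ContinuousLinearMap.star_eq_adjoint, ContinuousLinearMap.adjoint_inner_left]
    have h6 : cc = p * cc * star p := by
      ext y
      exact ext_inner_left ℂ fun x => key x y
    calc p * cc = p * cc * (star p * p) := by rw [hqp, mul_one]
      _ = (p * cc * star p) * p := by simp only [mul_assoc]
      _ = cc * p := by rw [← h6]
  obtain ⟨c0, hc0⟩ := t_G9b z hzL hI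
  -- c0 = 0
  have hc00 : c0 = 0 := by
    have h1 : Tendsto (fun i => CT.tauG N u v (AA (ψ i))) atTop (𝓝 c0) := by
      have h2 : Tendsto (fun i => ∫ θ, q i θ ∂AddCircle.haarAddCircle) atTop
          (𝓝 (∫ θ, z θ ∂AddCircle.haarAddCircle)) := by
        refine tendsto_integral_of_dominated_convergence (fun _ => 2 * ‖T‖)
          (fun i => (hqc i).aestronglyMeasurable) (integrable_const _)
          (fun i => Eventually.of_forall fun θ => hqb i θ) hqz
      have h3 : ∫ θ, z θ ∂AddCircle.haarAddCircle = c0 := by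
        rw [integral_congr_ae hc0, integral_const]
        simp
      rw [h3] at h2
      simp only [tauG_apply']
      exact h2
    simp only [htrA] at h1
    exact (tendsto_nhds_unique h1 tendsto_const_nhds)
  -- the contradiction
  have hlim : Tendsto (fun i => ∑ j, ∫ θ, ‖CT.evG N u θ (AA (ψ i)) (v j)‖ ^ 2
      ∂AddCircle.haarAddCircle) atTop (𝓝 (∑ _j : ι, (0:ℝ))) := by
    refine tendsto_finset_sum _ fun j _ => ?_
    have h0 : (0:ℝ) = ∫ _ : UnitAddCircle, (0:ℝ) ∂AddCircle.haarAddCircle := by simp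
    rw [h0]
    refine tendsto_integral_of_dominated_convergence (fun _ => (2 * ‖T‖ * ‖v j‖) ^ 2) ?_
      (integrable_const _) ?_ ?_
    · intro i
      exact (((CT.continuous_evG N u _).clm_apply continuous_const).norm.pow 2).aestronglyMeasurable
    · intro i
      refine Eventually.of_forall fun θ => ?_
      rw [Real.norm_eq_abs, abs_of_nonneg (by positivity)]
      have h5 := hAnorm θ i
      have h6 : ‖CT.evG N u θ (AA (ψ i)) (v j)‖ ≤ 2 * ‖T‖ * ‖v j‖ :=
        ((CT.evG N u θ (AA (ψ i))).le_opNorm _).trans (by gcongr)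
      exact pow_le_pow_left₀ (norm_nonneg _) h6 2
    · filter_upwards [hz, hc0] with θ hθ h7
      have h8 := ((hθ (v j)).norm).pow 2
      rw [h7, hc00, zero_smul, norm_zero] at h8
      simpa using h8
  rw [Finset.sum_const_zero] at hlim
  have h9 := ge_of_tendsto hlim (Eventually.of_forall hlowL2)
  have : 0 < c ^ 2 := by positivity
  linarith

end

end Pool.Agent.H270R3.CT
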