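import Pool.Agent.H270R3.CT.Stmts
import Pool.Agent.H712R5.BO.Stmts
import Pool.Agent.H712R5.BO.B4v

/-!
The C*-algebra generated by the words `θ ↦ e^{2πinθ} f u^n`, `f ∈ N`, and its trace (adapted from
`Pool.Agent.H417B`, helper417 / helper712).
-/

set_option autoImplicit false
open scoped ComplexConjugate InnerProductSpace Topology
open Filter MeasureTheory NormedSpace

namespace Pool.Agent.H270R3.CT
open Pool.Agent.H712R5.BO

variable {H : Type} [NormedAddCommGroup H] [InnerProductSpace ℂ H] [CompleteSpace H]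
  {ι : Type} [Fintype ι]

/-- the words `θ ↦ e^{2πinθ} f u^n`, `f ∈ N` -/
def Wd (N : StarSubalgebra ℂ (H →L[ℂ] H)) (u : unitary (H →L[ℂ] H)) :
    Set C(UnitAddCircle, H →L[ℂ] H) :=
  {A | ∃ (n : ℤ) (f : H →L[ℂ] H), f ∈ N ∧
    ∀ θ, A θ = (fourier n θ : ℂ) • (f * ((u ^ n : unitary (H →L[ℂ] H)) : H →L[ℂ] H))}

/-- the C*-algebra generated by the words -/
noncomputable def Alg (N : StarSubalgebra ℂ (H →L[ℂ] H)) (u : unitary (H →L[ℂ] H)) :
    StarSubalgebra ℂ C(UnitAddCircle, H →L[ℂ] H) :=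
  (StarAlgebra.adjoin ℂ (Wd N u)).topologicalClosure

theorem Wd_subset_Alg (N : StarSubalgebra ℂ (H →L[ℂ] H)) (u : unitary (H →L[ℂ] H))
    {A : C(UnitAddCircle, H →L[ℂ] H)} (hA : A ∈ Wd N u) : A ∈ Alg N u :=
  StarSubalgebra.le_topologicalClosure _ (StarAlgebra.subset_adjoin ℂ _ hA)

instance isClosed_Alg (N : StarSubalgebra ℂ (H →L[ℂ] H)) (u : unitary (H →L[ℂ] H)) :
    IsClosed ((Alg N u : StarSubalgebra ℂ C(UnitAddCircle, H →L[ℂ] H)) :
      Set C(UnitAddCircle, H →L[ℂ] H)) :=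
  StarSubalgebra.isClosed_topologicalClosure _

noncomputable instance CSG (N : StarSubalgebra ℂ (H →L[ℂ] H)) (u : unitary (H →L[ℂ] H)) :
    CStarAlgebra (Alg N u) := StarSubalgebra.cstarAlgebra (Alg N u)

/-- evaluation at `θ` -/
noncomputable def evG (N : StarSubalgebra ℂ (H →L[ℂ] H)) (u : unitary (H →L[ℂ] H))
    (θ : UnitAddCircle) : Alg N u →⋆ₐ[ℂ] (H →L[ℂ] H) where
  toFun := fun A => (A : C(UnitAddCircle, H →L[ℂ] H)) θ
  map_one' := rfl
  map_mul' := fun _ _ => rfl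
  map_zero' := rfl
  map_add' := fun _ _ => rfl
  commutes' := fun r => by
    simp [Algebra.algebraMap_eq_smul_one]
  map_star' := fun _ => rfl

theorem evG_apply (N : StarSubalgebra ℂ (H →L[ℂ] H)) (u : unitary (H →L[ℂ] H))
    (θ : UnitAddCircle) (A : Alg N u) : evG N u θ A = (A : C(UnitAddCircle, H →L[ℂ] H)) θ := rfl

theorem continuous_evG (N : StarSubalgebra ℂ (H →L[ℂ] H)) (u : unitary (H →L[ℂ] H))
    (A : Alg N u) : Continuous (fun θ => evG N u θ A) :=
  (A : C(UnitAddCircle, H →L[ℂ] H)).continuous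

theorem int_C {E : Type} [NormedAddCommGroup E] (g : UnitAddCircle → E) (hg : Continuous g) :
    Integrable g AddCircle.haarAddCircle :=
  hg.integrable_of_hasCompactSupport (HasCompactSupport.of_compactSpace _)

theorem integrable_evG (N : StarSubalgebra ℂ (H →L[ℂ] H)) (u : unitary (H →L[ℂ] H)) (v w : H)
    (A : Alg N u) : Integrable (fun θ => ⟪v, evG N u θ A w⟫_ℂ) AddCircle.haarAddCircle :=
  int_C _ (continuous_const.inner ((continuous_evG N u A).clm_apply continuous_const))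

/-- `τ_v(A) = ∫ ⟨v, A(θ) v⟩ dθ` -/
noncomputable def tauV (N : StarSubalgebra ℂ (H →L[ℂ] H)) (u : unitary (H →L[ℂ] H)) (v : H) :
    Alg N u →L[ℂ] ℂ :=
  LinearMap.mkContinuous
    { toFun := fun A => ∫ θ, ⟪v, evG N u θ A v⟫_ℂ ∂AddCircle.haarAddCircle
      map_add' := by
        intro A B
        rw [← integral_add (integrable_evG N u v v A) (integrable_evG N u v v B)]
        refine integral_congr_ae (Eventually.of_forall (fun θ => ?_))
        simp only [map_add, _root_.add_apply, inner_add_right]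
      map_smul' := by
        intro c A
        rw [RingHom.id_apply, smul_eq_mul, ← integral_const_mul]
        refine integral_congr_ae (Eventually.of_forall (fun θ => ?_))
        have h : evG N u θ (c • A) = c • evG N u θ A := rfl
        show ⟪v, (evG N u θ (c • A)) v⟫_ℂ = c * ⟪v, (evG N u θ A) v⟫_ℂ
        rw [h, _root_.smul_apply, inner_smul_right] }
    (‖v‖ ^ 2) (by
      intro A
      have h1 : ∀ θ : UnitAddCircle, ‖⟪v, evG N u θ A v⟫_ℂ‖ ≤ ‖v‖ ^ 2 * ‖A‖ := by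
        intro θ
        have h2 : ‖evG N u θ A‖ ≤ ‖A‖ := (A : C(UnitAddCircle, H →L[ℂ] H)).norm_coe_le_norm θ
        calc ‖⟪v, evG N u θ A v⟫_ℂ‖ ≤ ‖v‖ * ‖evG N u θ A v‖ := norm_inner_le_norm _ _
          _ ≤ ‖v‖ * (‖evG N u θ A‖ * ‖v‖) := by
              gcongr
              exact (evG N u θ A).le_opNorm v
          _ ≤ ‖v‖ * (‖A‖ * ‖v‖) := by gcongr
          _ = ‖v‖ ^ 2 * ‖A‖ := by ring
      have h3 := norm_integral_le_of_norm_le_const (μ := AddCircle.haarAddCircle)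
        (Eventually.of_forall h1)
      simpa using h3)

theorem tauV_apply (N : StarSubalgebra ℂ (H →L[ℂ] H)) (u : unitary (H →L[ℂ] H)) (v : H)
    (A : Alg N u) : tauV N u v A = ∫ θ, ⟪v, evG N u θ A v⟫_ℂ ∂AddCircle.haarAddCircle := rfl

/-- `τ(A) = ∑_j ∫ ⟨v_j, A(θ) v_j⟩ dθ` -/
noncomputable def tauG (N : StarSubalgebra ℂ (H →L[ℂ] H)) (u : unitary (H →L[ℂ] H))
    (v : ι → H) : Alg N u →L[ℂ] ℂ := ∑ j, tauV N u (v j)

theorem tauG_apply (N : StarSubalgebra ℂ (H →L[ℂ] H)) (u : unitary (H →L[ℂ] H)) (v : ι → H)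
    (A : Alg N u) :
    tauG N u v A = ∑ j, ∫ θ, ⟪v j, evG N u θ A (v j)⟫_ℂ ∂AddCircle.haarAddCircle := by
  simp only [tauG, _root_.sum_apply, tauV_apply]

theorem tauG_apply' (N : StarSubalgebra ℂ (H →L[ℂ] H)) (u : unitary (H →L[ℂ] H)) (v : ι → H)
    (A : Alg N u) :
    tauG N u v A = ∫ θ, ∑ j, ⟪v j, evG N u θ A (v j)⟫_ℂ ∂AddCircle.haarAddCircle := by
  rw [tauG_apply, integral_finset_sum]
  exact fun j _ => integrable_evG N u (v j) (v j) A

/-- the element `θ ↦ e^{2 π i θ} T` of `Alg N u`, for `T u* ∈ N` -/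
noncomputable def TtG (N : StarSubalgebra ℂ (H →L[ℂ] H)) (u : unitary (H →L[ℂ] H))
    (T : H →L[ℂ] H) (hT : T * star (u : H →L[ℂ] H) ∈ N) : Alg N u :=
  ⟨⟨fun θ => (fourier 1 θ : ℂ) • T, (fourier 1).continuous.smul continuous_const⟩, by
    apply Wd_subset_Alg
    refine ⟨1, T * star (u : H →L[ℂ] H), hT, fun θ => ?_⟩
    have e2 : star (u : H →L[ℂ] H) * (u : H →L[ℂ] H) = 1 := (Unitary.mem_iff.mp u.2).1
    show (fourier 1 θ : ℂ) • T = (fourier 1 θ : ℂ) • (T * star (u : H →L[ℂ] H)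
      * ((u ^ (1:ℤ) : unitary (H →L[ℂ] H)) : H →L[ℂ] H))
    rw [zpow_one, mul_assoc, e2, mul_one]⟩

theorem evG_TtG (N : StarSubalgebra ℂ (H →L[ℂ] H)) (u : unitary (H →L[ℂ] H)) (T : H →L[ℂ] H)
    (hT : T * star (u : H →L[ℂ] H) ∈ N) (θ : UnitAddCircle) :
    evG N u θ (TtG N u T hT) = (fourier 1 θ : ℂ) • T := rfl

/-! ### words -/

theorem Dt.nz {N : StarSubalgebra ℂ (H →L[ℂ] H)} {u : unitary (H →L[ℂ] H)} {v : ι → H}
    (hD : Dt N u v) (n : ℤ) : ∀ f ∈ N, ((u ^ n : unitary (H →L[ℂ] H)) : H →L[ℂ] H) * f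
      * star ((u ^ n : unitary (H →L[ℂ] H)) : H →L[ℂ] H) ∈ N := by
  let S : Subgroup (unitary (H →L[ℂ] H)) :=
    { carrier := {w | (∀ f ∈ N, (w : H →L[ℂ] H) * f * star (w : H →L[ℂ] H) ∈ N) ∧
        ∀ f ∈ N, star (w : H →L[ℂ] H) * f * (w : H →L[ℂ] H) ∈ N}
      mul_mem' := by
        rintro a b ⟨ha1, ha2⟩ ⟨hb1, hb2⟩
        constructor
        · intro f hf
          have h := ha1 _ (hb1 f hf)
          have e : ((a * b : unitary (H →L[ℂ] H)) : H →L[ℂ] H) * f
              * star ((a * b : unitary (H →L[ℂ] H)) : H →L[ℂ] H)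
              = (a : H →L[ℂ] H) * ((b : H →L[ℂ] H) * f * star (b : H →L[ℂ] H))
                * star (a : H →L[ℂ] H) := by
            rw [show ((a * b : unitary (H →L[ℂ] H)) : H →L[ℂ] H)
              = (a : H →L[ℂ] H) * (b : H →L[ℂ] H) from rfl, star_mul]
            simp only [mul_assoc]
          rw [e]; exact h
        · intro f hf
          have h := hb2 _ (ha2 f hf)
          have e : star ((a * b : unitary (H →L[ℂ] H)) : H →L[ℂ] H) * f
              * ((a * b : unitary (H →L[ℂ] H)) : H →L[ℂ] H)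
              = star (b : H →L[ℂ] H) * (star (a : H →L[ℂ] H) * f * (a : H →L[ℂ] H))
                * (b : H →L[ℂ] H) := by
            rw [show ((a * b : unitary (H →L[ℂ] H)) : H →L[ℂ] H)
              = (a : H →L[ℂ] H) * (b : H →L[ℂ] H) from rfl, star_mul]
            simp only [mul_assoc]
          rw [e]; exact h
      one_mem' := by
        constructor
        · intro f hf
          simpa using hf
        · intro f hf
          simpa using hf
      inv_mem' := by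
        rintro a ⟨ha1, ha2⟩
        have e : ((a⁻¹ : unitary (H →L[ℂ] H)) : H →L[ℂ] H) = star (a : H →L[ℂ] H) := rfl
        constructor
        · intro f hf
          rw [e, star_star]
          exact ha2 f hf
        · intro f hf
          rw [e, star_star]
          exact ha1 f hf }
  exact (S.zpow_mem (show u ∈ S from ⟨hD.n1, hD.n2⟩) n).1

theorem Dt.fz {N : StarSubalgebra ℂ (H →L[ℂ] H)} {u : unitary (H →L[ℂ] H)} {v : ι → H}
    (hD : Dt N u v) (n : ℤ) (j : ι) :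
    ((u ^ n : unitary (H →L[ℂ] H)) : H →L[ℂ] H) (v j) = v j := by
  let S : Subgroup (unitary (H →L[ℂ] H)) :=
    { carrier := {w | (w : H →L[ℂ] H) (v j) = v j}
      mul_mem' := by
        intro a b ha hb
        show (a : H →L[ℂ] H) ((b : H →L[ℂ] H) (v j)) = v j
        rw [show (b : H →L[ℂ] H) (v j) = v j from hb]
        exact ha
      one_mem' := rfl
      inv_mem' := by
        intro a ha
        have e : ((a⁻¹ : unitary (H →L[ℂ] H)) : H →L[ℂ] H) * (a : H →L[ℂ] H) = 1 :=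
          congrArg Subtype.val (inv_mul_cancel a)
        have e2 : ((a⁻¹ : unitary (H →L[ℂ] H)) : H →L[ℂ] H) ((a : H →L[ℂ] H) (v j)) = v j :=
          congrArg (fun T : H →L[ℂ] H => T (v j)) e
        rw [show (a : H →L[ℂ] H) (v j) = v j from ha] at e2
        exact e2 }
  exact S.zpow_mem (show u ∈ S from hD.fx j) n

theorem Wd_one (N : StarSubalgebra ℂ (H →L[ℂ] H)) (u : unitary (H →L[ℂ] H)) :
    (1 : C(UnitAddCircle, H →L[ℂ] H)) ∈ Wd N u := by
  refine ⟨0, 1, N.one_mem, fun θ => ?_⟩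
  simp

theorem Wd_const (N : StarSubalgebra ℂ (H →L[ℂ] H)) (u : unitary (H →L[ℂ] H)) (f : H →L[ℂ] H)
    (hf : f ∈ N) : (ContinuousMap.const _ f : C(UnitAddCircle, H →L[ℂ] H)) ∈ Wd N u := by
  refine ⟨0, f, hf, fun θ => ?_⟩
  simp

theorem Wd_mul {N : StarSubalgebra ℂ (H →L[ℂ] H)} {u : unitary (H →L[ℂ] H)} {v : ι → H}
    (hD : Dt N u v) {A B : C(UnitAddCircle, H →L[ℂ] H)} (hA : A ∈ Wd N u) (hB : B ∈ Wd N u) :
    A * B ∈ Wd N u := by
  obtain ⟨n, f, hf, hA⟩ := hA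
  obtain ⟨m, g, hg, hB⟩ := hB
  have h2 := hD.nz n g hg
  refine ⟨n + m, f * (((u ^ n : unitary (H →L[ℂ] H)) : H →L[ℂ] H) * g *
    star ((u ^ n : unitary (H →L[ℂ] H)) : H →L[ℂ] H)), N.mul_mem hf h2, fun θ => ?_⟩
  have e : star ((u ^ n : unitary (H →L[ℂ] H)) : H →L[ℂ] H) *
      ((u ^ n : unitary (H →L[ℂ] H)) : H →L[ℂ] H) = 1 := (Unitary.mem_iff.mp (u ^ n).2).1
  have e2 : ((u ^ (n + m) : unitary (H →L[ℂ] H)) : H →L[ℂ] H) =
      ((u ^ n : unitary (H →L[ℂ] H)) : H →L[ℂ] H) *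
        ((u ^ m : unitary (H →L[ℂ] H)) : H →L[ℂ] H) := by
    rw [zpow_add]; rfl
  rw [ContinuousMap.mul_apply, hA, hB, fourier_add, smul_mul_smul_comm, e2]
  congr 1
  generalize ((u ^ n : unitary (H →L[ℂ] H)) : H →L[ℂ] H) = U at *
  generalize ((u ^ m : unitary (H →L[ℂ] H)) : H →L[ℂ] H) = V at *
  calc f * U * (g * V) = f * (U * g) * V := by simp only [mul_assoc]
    _ = f * (U * g) * (star U * U) * V := by rw [e, mul_one]
    _ = f * (U * g * star U) * (U * V) := by simp only [mul_assoc]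

theorem Wd_star {N : StarSubalgebra ℂ (H →L[ℂ] H)} {u : unitary (H →L[ℂ] H)} {v : ι → H}
    (hD : Dt N u v) {A : C(UnitAddCircle, H →L[ℂ] H)} (hA : A ∈ Wd N u) :
    star A ∈ Wd N u := by
  obtain ⟨n, f, hf, hA⟩ := hA
  have h3 := hD.nz (-n) (star f) (N.star_mem' hf)
  have e2 : ((u ^ (-n) : unitary (H →L[ℂ] H)) : H →L[ℂ] H) =
      star ((u ^ n : unitary (H →L[ℂ] H)) : H →L[ℂ] H) := by
    rw [zpow_neg]; rfl
  refine ⟨-n, ((u ^ (-n) : unitary (H →L[ℂ] H)) : H →L[ℂ] H) * star f *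
    star ((u ^ (-n) : unitary (H →L[ℂ] H)) : H →L[ℂ] H), h3, fun θ => ?_⟩
  have e : ((u ^ n : unitary (H →L[ℂ] H)) : H →L[ℂ] H) *
        star ((u ^ n : unitary (H →L[ℂ] H)) : H →L[ℂ] H) = 1 := (Unitary.mem_iff.mp (u ^ n).2).2
  rw [ContinuousMap.star_apply, hA, star_smul, star_mul, e2, star_star]
  have e3 : star (fourier n θ : ℂ) = fourier (-n) θ := by
    rw [fourier_neg]; rfl
  rw [e3]
  congr 1
  rw [mul_assoc, e, mul_one]

theorem dense_Wd {N : StarSubalgebra ℂ (H →L[ℂ] H)} {u : unitary (H →L[ℂ] H)} {v : ι → H}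
    (hD : Dt N u v) : ∀ A ∈ Alg N u, A ∈ closure ((Submodule.span ℂ (Wd N u) :
      Submodule ℂ C(UnitAddCircle, H →L[ℂ] H)) : Set C(UnitAddCircle, H →L[ℂ] H)) := by
  intro A hA
  have hmul : ∀ x ∈ (Submodule.span ℂ (Wd N u) : Submodule ℂ C(UnitAddCircle, H →L[ℂ] H)),
      ∀ y ∈ (Submodule.span ℂ (Wd N u) : Submodule ℂ C(UnitAddCircle, H →L[ℂ] H)),
      x * y ∈ (Submodule.span ℂ (Wd N u) : Submodule ℂ C(UnitAddCircle, H →L[ℂ] H)) := by
    intro x hx y hy
    induction hx using Submodule.span_induction with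
    | mem x hx =>
      induction hy using Submodule.span_induction with
      | mem y hy => exact Submodule.subset_span (Wd_mul hD hx hy)
      | zero => rw [mul_zero]; exact Submodule.zero_mem _
      | add y z _ _ hy hz => rw [mul_add]; exact Submodule.add_mem _ hy hz
      | smul c y _ hy => rw [mul_smul_comm]; exact Submodule.smul_mem _ _ hy
    | zero => rw [zero_mul]; exact Submodule.zero_mem _
    | add x z _ _ hx hz => rw [add_mul]; exact Submodule.add_mem _ hx hz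
    | smul c x _ hx => rw [smul_mul_assoc]; exact Submodule.smul_mem _ _ hx
  have hstar : ∀ x ∈ (Submodule.span ℂ (Wd N u) : Submodule ℂ C(UnitAddCircle, H →L[ℂ] H)),
      star x ∈ (Submodule.span ℂ (Wd N u) : Submodule ℂ C(UnitAddCircle, H →L[ℂ] H)) := by
    intro x hx
    induction hx using Submodule.span_induction with
    | mem x hx => exact Submodule.subset_span (Wd_star hD hx)
    | zero => rw [star_zero]; exact Submodule.zero_mem _
    | add x z _ _ hx hz => rw [star_add]; exact Submodule.add_mem _ hx hz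
    | smul c x _ hx => rw [star_smul]; exact Submodule.smul_mem _ _ hx
  have key : ∀ B ∈ StarAlgebra.adjoin ℂ (Wd N u),
      B ∈ (Submodule.span ℂ (Wd N u) : Submodule ℂ C(UnitAddCircle, H →L[ℂ] H)) := by
    intro B hB
    induction hB using StarAlgebra.adjoin_induction with
    | mem x hx => exact Submodule.subset_span hx
    | algebraMap r =>
      rw [Algebra.algebraMap_eq_smul_one]
      exact Submodule.smul_mem _ _ (Submodule.subset_span (Wd_one N u))
    | add x y _ _ hx hy => exact Submodule.add_mem _ hx hy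
    | mul x y _ _ hx hy => exact hmul x hx y hy
    | star x _ hx => exact hstar x hx
  have hA' : A ∈ closure ((StarAlgebra.adjoin ℂ (Wd N u) :
      StarSubalgebra ℂ C(UnitAddCircle, H →L[ℂ] H)) : Set C(UnitAddCircle, H →L[ℂ] H)) := by
    rw [← StarSubalgebra.topologicalClosure_coe]
    exact hA
  exact closure_mono (fun B hB => key B hB) hA'

/-! ### the trace property for words -/

theorem word_key {N : StarSubalgebra ℂ (H →L[ℂ] H)} {u : unitary (H →L[ℂ] H)} {v : ι → H}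
    (hD : Dt N u v) (n m : ℤ) (hnm : n + m = 0) (f g : H →L[ℂ] H) (hf : f ∈ N) (hg : g ∈ N) :
    ∑ j, ⟪v j, ((f * ((u ^ n : unitary (H →L[ℂ] H)) : H →L[ℂ] H)) *
      (g * ((u ^ m : unitary (H →L[ℂ] H)) : H →L[ℂ] H))) (v j)⟫_ℂ =
    ∑ j, ⟪v j, ((g * ((u ^ m : unitary (H →L[ℂ] H)) : H →L[ℂ] H)) *
      (f * ((u ^ n : unitary (H →L[ℂ] H)) : H →L[ℂ] H))) (v j)⟫_ℂ := by
  have hm : m = -n := by omega
  subst hm
  set p : H →L[ℂ] H := ((u ^ n : unitary (H →L[ℂ] H)) : H →L[ℂ] H) with hp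
  have hq : ((u ^ (-n) : unitary (H →L[ℂ] H)) : H →L[ℂ] H) = star p := by
    rw [zpow_neg]
    rfl
  rw [hq]
  have hqp : star p * p = 1 := (Unitary.mem_iff.mp (u ^ n).2).1
  have hpb : ∀ j, p (v j) = v j := fun j => hD.fz n j
  have hg' := hD.nz n g hg
  rw [← hp] at hg'
  have e1 : (f * p) * (g * star p) = f * (p * g * star p) := by
    simp only [mul_assoc]
  have e2 : (g * star p) * (f * p) = star p * ((p * g * star p) * f * p) := by
    have : star p * ((p * g * star p) * f * p) = (star p * p) * ((g * star p) * (f * p)) := by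
      simp only [mul_assoc]
    rw [this, hqp, one_mul]
  rw [e1, e2, hD.tr f hf _ hg']
  refine Finset.sum_congr rfl fun j _ => ?_
  show ⟪v j, ((p * g * star p) * f) (v j)⟫_ℂ =
    ⟪v j, (star p) (((p * g * star p) * f) (p (v j)))⟫_ℂ
  rw [ContinuousLinearMap.star_eq_adjoint, ContinuousLinearMap.adjoint_inner_right, hpb]

/-- the bilinear form -/
noncomputable def FF (v : H) (A B : C(UnitAddCircle, H →L[ℂ] H)) : ℂ :=
  ∫ θ, ⟪v, (A θ * B θ) v⟫_ℂ ∂AddCircle.haarAddCircle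

theorem FF_int (v : H) (A B : C(UnitAddCircle, H →L[ℂ] H)) :
    Integrable (fun θ => ⟪v, (A θ * B θ) v⟫_ℂ) AddCircle.haarAddCircle :=
  int_C _ (continuous_const.inner (((A.continuous.mul B.continuous)).clm_apply continuous_const))

theorem FF_add_left (v : H) (A A' B : C(UnitAddCircle, H →L[ℂ] H)) :
    FF v (A + A') B = FF v A B + FF v A' B := by
  unfold FF
  rw [← integral_add (FF_int v A B) (FF_int v A' B)]
  refine integral_congr_ae (Eventually.of_forall fun θ => ?_)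
  show ⟪v, ((A θ + A' θ) * B θ) v⟫_ℂ = _
  rw [add_mul, _root_.add_apply, inner_add_right]

theorem FF_add_right (v : H) (A A' B : C(UnitAddCircle, H →L[ℂ] H)) :
    FF v B (A + A') = FF v B A + FF v B A' := by
  unfold FF
  rw [← integral_add (FF_int v B A) (FF_int v B A')]
  refine integral_congr_ae (Eventually.of_forall fun θ => ?_)
  show ⟪v, (B θ * (A θ + A' θ)) v⟫_ℂ = _
  rw [mul_add, _root_.add_apply, inner_add_right]

theorem FF_smul_left (v : H) (c : ℂ) (A B : C(UnitAddCircle, H →L[ℂ] H)) :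
    FF v (c • A) B = c * FF v A B := by
  unfold FF
  rw [← integral_const_mul]
  refine integral_congr_ae (Eventually.of_forall fun θ => ?_)
  show ⟪v, ((c • A θ) * B θ) v⟫_ℂ = _
  rw [smul_mul_assoc, _root_.smul_apply, inner_smul_right]

theorem FF_smul_right (v : H) (c : ℂ) (A B : C(UnitAddCircle, H →L[ℂ] H)) :
    FF v B (c • A) = c * FF v B A := by
  unfold FF
  rw [← integral_const_mul]
  refine integral_congr_ae (Eventually.of_forall fun θ => ?_)
  show ⟪v, (B θ * (c • A θ)) v⟫_ℂ = _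
  rw [mul_smul_comm, _root_.smul_apply, inner_smul_right]

theorem FF_bd (v : H) (A B : C(UnitAddCircle, H →L[ℂ] H)) :
    ‖FF v A B‖ ≤ ‖v‖ ^ 2 * (‖A‖ * ‖B‖) := by
  have h1 : ∀ θ : UnitAddCircle, ‖⟪v, (A θ * B θ) v⟫_ℂ‖ ≤ ‖v‖ ^ 2 * (‖A‖ * ‖B‖) := by
    intro θ
    have h2 : ‖A θ‖ ≤ ‖A‖ := A.norm_coe_le_norm θ
    have h3 : ‖B θ‖ ≤ ‖B‖ := B.norm_coe_le_norm θ
    calc ‖⟪v, (A θ * B θ) v⟫_ℂ‖ ≤ ‖v‖ * ‖(A θ * B θ) v‖ := norm_inner_le_norm _ _
      _ ≤ ‖v‖ * (‖A θ * B θ‖ * ‖v‖) := by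
          gcongr
          exact (A θ * B θ).le_opNorm v
      _ ≤ ‖v‖ * ((‖A θ‖ * ‖B θ‖) * ‖v‖) := by
          gcongr
          exact norm_mul_le _ _
      _ ≤ ‖v‖ * ((‖A‖ * ‖B‖) * ‖v‖) := by gcongr
      _ = ‖v‖ ^ 2 * (‖A‖ * ‖B‖) := by ring
  have h3 := norm_integral_le_of_norm_le_const (μ := AddCircle.haarAddCircle)
    (Eventually.of_forall h1)
  simpa [FF] using h3

/-- the commutator functional -/
noncomputable def DD (v : H) (B : C(UnitAddCircle, H →L[ℂ] H)) :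
    C(UnitAddCircle, H →L[ℂ] H) →L[ℂ] ℂ :=
  LinearMap.mkContinuous
    { toFun := fun A => FF v A B - FF v B A
      map_add' := by
        intro A A'
        rw [FF_add_left, FF_add_right]
        ring
      map_smul' := by
        intro c A
        rw [FF_smul_left, FF_smul_right, RingHom.id_apply, smul_eq_mul]
        ring }
    (2 * (‖v‖ ^ 2 * ‖B‖)) (by
      intro A
      have h1 := FF_bd v A B
      have h2 := FF_bd v B A
      calc ‖FF v A B - FF v B A‖ ≤ ‖FF v A B‖ + ‖FF v B A‖ := norm_sub_le _ _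
        _ ≤ ‖v‖ ^ 2 * (‖A‖ * ‖B‖) + ‖v‖ ^ 2 * (‖B‖ * ‖A‖) := add_le_add h1 h2
        _ = 2 * (‖v‖ ^ 2 * ‖B‖) * ‖A‖ := by ring)

/-- the sum of the commutator functionals -/
noncomputable def DS (v : ι → H) (B : C(UnitAddCircle, H →L[ℂ] H)) :
    C(UnitAddCircle, H →L[ℂ] H) →L[ℂ] ℂ := ∑ j, DD (v j) B

theorem DS_apply (v : ι → H) (A B : C(UnitAddCircle, H →L[ℂ] H)) :
    DS v B A = ∑ j, FF (v j) A B - ∑ j, FF (v j) B A := by
  rw [← Finset.sum_sub_distrib]
  simp only [DS, _root_.sum_apply]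
  rfl

theorem ext_Alg {N : StarSubalgebra ℂ (H →L[ℂ] H)} {u : unitary (H →L[ℂ] H)} {v : ι → H}
    (hD : Dt N u v) (D : C(UnitAddCircle, H →L[ℂ] H) →L[ℂ] ℂ)
    (h0 : ∀ A ∈ Wd N u, D A = 0) : ∀ A ∈ Alg N u, D A = 0 := by
  intro A hA
  have h1 : Submodule.span ℂ (Wd N u) ≤ LinearMap.ker (D : C(UnitAddCircle, H →L[ℂ] H) →ₗ[ℂ] ℂ) :=
    Submodule.span_le.2 fun B hB => h0 B hB
  have h2 : IsClosed {B : C(UnitAddCircle, H →L[ℂ] H) | D B = 0} :=
    isClosed_eq D.continuous continuous_const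
  have h3 := closure_minimal (t := {B : C(UnitAddCircle, H →L[ℂ] H) | D B = 0})
    (fun B hB => h1 hB) h2
  exact h3 (dense_Wd hD A hA)

theorem int_fourier (n : ℤ) (hn : n ≠ 0) :
    ∫ θ : UnitAddCircle, (fourier n θ : ℂ) ∂AddCircle.haarAddCircle = 0 :=
  integral_eq_zero_of_add_right_eq_neg (μ := AddCircle.haarAddCircle)
    (fourier_add_half_inv_index hn one_pos)

theorem word_tr {N : StarSubalgebra ℂ (H →L[ℂ] H)} {u : unitary (H →L[ℂ] H)} {v : ι → H}
    (hD : Dt N u v) : ∀ A ∈ Wd N u, ∀ B ∈ Wd N u, ∑ j, FF (v j) A B = ∑ j, FF (v j) B A := by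
  intro A hA B hB
  obtain ⟨n, f, hf, hAf⟩ := hA
  obtain ⟨m, g, hg, hBg⟩ := hB
  have e1 : ∀ j, FF (v j) A B = (∫ θ : UnitAddCircle, (fourier (n + m) θ : ℂ) ∂AddCircle.haarAddCircle) *
      ⟪v j, ((f * ((u ^ n : unitary (H →L[ℂ] H)) : H →L[ℂ] H)) *
        (g * ((u ^ m : unitary (H →L[ℂ] H)) : H →L[ℂ] H))) (v j)⟫_ℂ := by
    intro j
    unfold FF
    rw [← integral_mul_const]
    refine integral_congr_ae (Eventually.of_forall fun θ => ?_)
    show ⟪v j, (A θ * B θ) (v j)⟫_ℂ = _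
    rw [hAf, hBg, smul_mul_smul_comm, ← fourier_add, _root_.smul_apply, inner_smul_right]
  have e2 : ∀ j, FF (v j) B A = (∫ θ : UnitAddCircle, (fourier (n + m) θ : ℂ) ∂AddCircle.haarAddCircle) *
      ⟪v j, ((g * ((u ^ m : unitary (H →L[ℂ] H)) : H →L[ℂ] H)) *
        (f * ((u ^ n : unitary (H →L[ℂ] H)) : H →L[ℂ] H))) (v j)⟫_ℂ := by
    intro j
    unfold FF
    rw [← integral_mul_const]
    refine integral_congr_ae (Eventually.of_forall fun θ => ?_)
    show ⟪v j, (B θ * A θ) (v j)⟫_ℂ = _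
    rw [hAf, hBg, smul_mul_smul_comm, ← fourier_add, add_comm m n, _root_.smul_apply,
      inner_smul_right]
  simp only [e1, e2, ← Finset.mul_sum]
  by_cases hnm : n + m = 0
  · rw [word_key hD n m hnm f g hf hg]
  · rw [int_fourier _ hnm, zero_mul, zero_mul]

theorem ev_adj (N : StarSubalgebra ℂ (H →L[ℂ] H)) (u : unitary (H →L[ℂ] H)) (A : Alg N u)
    (θ : UnitAddCircle) (x y : H) :
    ⟪x, evG N u θ A y⟫_ℂ = ⟪evG N u θ (star A) x, y⟫_ℂ := by
  rw [map_star, ContinuousLinearMap.star_eq_adjoint, ContinuousLinearMap.adjoint_inner_left]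

/-- `n2² = ∑_j ∫ ‖A(θ) v_j‖²` -/
theorem tau_sq (N : StarSubalgebra ℂ (H →L[ℂ] H)) (u : unitary (H →L[ℂ] H)) (v : ι → H)
    (A : Alg N u) : tauG N u v (star A * A)
      = ((∑ j, ∫ θ, ‖evG N u θ A (v j)‖ ^ 2 ∂AddCircle.haarAddCircle : ℝ) : ℂ) := by
  rw [tauG_apply]
  push_cast
  refine Finset.sum_congr rfl fun j _ => ?_
  have key : ∀ θ : UnitAddCircle, ⟪v j, evG N u θ (star A * A) (v j)⟫_ℂ
      = ((‖evG N u θ A (v j)‖ ^ 2 : ℝ) : ℂ) := by
    intro θ
    rw [map_mul, map_star]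
    show ⟪v j, (star (evG N u θ A)) ((evG N u θ A) (v j))⟫_ℂ = _
    rw [ContinuousLinearMap.star_eq_adjoint,
      ContinuousLinearMap.adjoint_inner_right, inner_self_eq_norm_sq_to_K]
    push_cast
    rfl
  rw [integral_congr_ae (Eventually.of_forall key)]
  exact integral_ofReal

theorem n2_sq (N : StarSubalgebra ℂ (H →L[ℂ] H)) (u : unitary (H →L[ℂ] H)) (v : ι → H)
    (A : Alg N u) : (n2 (tauG N u v) A) ^ 2
      = ∑ j, ∫ θ, ‖evG N u θ A (v j)‖ ^ 2 ∂AddCircle.haarAddCircle := by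
  unfold n2
  rw [tau_sq, Complex.ofReal_re, Real.sq_sqrt]
  exact Finset.sum_nonneg fun j _ => integral_nonneg (fun θ => by positivity)

theorem trst {N : StarSubalgebra ℂ (H →L[ℂ] H)} {u : unitary (H →L[ℂ] H)} {v : ι → H}
    (hD : Dt N u v) : TrSt (tauG N u v) := by
  refine ⟨?_, ?_, ?_, ?_⟩
  · rw [tauG_apply]
    have h1 : ∀ j, ∀ θ : UnitAddCircle, ⟪v j, evG N u θ 1 (v j)⟫_ℂ = ((‖v j‖ ^ 2 : ℝ) : ℂ) := by
      intro j θ
      rw [map_one, show (1 : H →L[ℂ] H) (v j) = v j from rfl, inner_self_eq_norm_sq_to_K]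
      push_cast
      rfl
    simp only [h1]
    have h2 : ∀ j, ∫ _ : UnitAddCircle, ((‖v j‖ ^ 2 : ℝ) : ℂ) ∂AddCircle.haarAddCircle
        = ((‖v j‖ ^ 2 : ℝ) : ℂ) := by
      intro j
      rw [integral_const]
      simp
    simp only [h2]
    rw [← Complex.ofReal_sum, hD.nm]
    simp
  · intro a
    rw [tau_sq, Complex.ofReal_re]
    exact Finset.sum_nonneg fun j _ => integral_nonneg (fun θ => by positivity)
  · intro a
    rw [tauG_apply, tauG_apply, map_sum]
    refine Finset.sum_congr rfl fun j _ => ?_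
    rw [← integral_conj]
    refine integral_congr_ae (Eventually.of_forall fun θ => ?_)
    show ⟪v j, evG N u θ (star a) (v j)⟫_ℂ = conj ⟪v j, evG N u θ a (v j)⟫_ℂ
    rw [ev_adj, star_star, inner_conj_symm]
  · intro A B
    have s1 : ∀ B ∈ Wd N u, ∀ A ∈ Alg N u, DS v B A = 0 := by
      intro B hB
      refine ext_Alg hD _ fun A hA => ?_
      rw [DS_apply, sub_eq_zero]
      exact word_tr hD A hA B hB
    have s2 : ∀ A ∈ Alg N u, ∀ B ∈ Alg N u, DS v A B = 0 := by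
      intro A hA
      refine ext_Alg hD _ fun B hB => ?_
      have := s1 B hB A hA
      rw [DS_apply, sub_eq_zero] at this ⊢
      exact this.symm
    have s3 := s2 B.1 B.2 A.1 A.2
    rw [DS_apply, sub_eq_zero] at s3
    rw [tauG_apply, tauG_apply]
    exact s3

end Pool.Agent.H270R3.CT
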