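import Pool.Agent.H270R3.CT.Abs2

set_option autoImplicit false
open scoped ComplexConjugate InnerProductSpace Topology
open Filter MeasureTheory NormedSpace

namespace Pool.Agent.H270R3.CT
open Pool.Agent.H712R5.BO

theorem t_ABS : P_ABS := by
  intro H _ _ _ _ ι _ N u v hD T hT ⟨κ, hκ⟩
  set r : ℝ := Real.exp (-κ / 2) with hr
  have hr0 : 0 < r := Real.exp_pos _
  have hT' : ((r : ℂ) • T) * star (u : H →L[ℂ] H) ∈ N := by
    rw [smul_mul_assoc]
    exact N.toSubalgebra.smul_mem hT _
  obtain ⟨V, h1, h2, h3, h4⟩ := abs_scaled hD ((r : ℂ) • T) hT' (by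
    intro k δ hk hδ
    set s : ℝ := (r ^ k) ^ 2 with hs
    have hs0 : 0 < s := by positivity
    have e1 : star (((r : ℂ) • T) ^ k) * ((r : ℂ) • T) ^ k = s • (star (T ^ k) * T ^ k) := by
      rw [smul_pow, star_smul, smul_mul_smul_comm]
      have : star ((r : ℂ) ^ k) * (r : ℂ) ^ k = ((s : ℝ) : ℂ) := by
        rw [star_pow, Complex.star_def, Complex.conj_ofReal, hs]
        push_cast
        ring
      rw [this, Complex.coe_smul]
    have e2 : algebraMap ℝ (H →L[ℂ] H) δ + s • (star (T ^ k) * T ^ k)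
        = s • (algebraMap ℝ (H →L[ℂ] H) (δ / s) + star (T ^ k) * T ^ k) := by
      rw [smul_add, Algebra.algebraMap_eq_smul_one, Algebra.algebraMap_eq_smul_one, smul_smul]
      congr 2
      field_simp
    have hδs : 0 < δ / s := by positivity
    rw [e1, e2, CFC.log_smul _ (fun x hx => by
      have := spec_low (T ^ k) hδs x hx
      exact (lt_of_lt_of_le hδs this).ne') hs0.ne' (sa_low _ _)]
    have e3 : ∀ j, ⟪v j, (algebraMap ℝ (H →L[ℂ] H) (Real.log s)
        + CFC.log (algebraMap ℝ (H →L[ℂ] H) (δ / s) + star (T ^ k) * T ^ k)) (v j)⟫_ℂ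
        = ((Real.log s * ‖v j‖ ^ 2 : ℝ) : ℂ) + ⟪v j, CFC.log (algebraMap ℝ (H →L[ℂ] H) (δ / s)
          + star (T ^ k) * T ^ k) (v j)⟫_ℂ := by
      intro j
      rw [_root_.add_apply, inner_add_right]
      congr 1
      rw [Algebra.algebraMap_eq_smul_one]
      show ⟪v j, (Real.log s) • (v j)⟫_ℂ = _
      rw [← Complex.coe_smul, inner_smul_right, inner_self_eq_norm_sq_to_K]
      push_cast
      rfl
    simp only [e3]
    rw [Finset.sum_add_distrib, Complex.add_re, ← Complex.ofReal_sum, Complex.ofReal_re,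
      ← Finset.mul_sum, hD.nm, mul_one]
    have h5 := hκ k (δ / s) hk hδs
    have h6 : Real.log s = -(k * κ) := by
      rw [hs, Real.log_pow, Real.log_pow, hr, Real.log_exp]
      push_cast
      ring
    rw [h6]
    linarith)
  exact ⟨V, h1, h2, h3, fun R hR x hx => h4 R (by rw [mul_smul_comm, smul_mul_assoc, hR]) x hx⟩

end Pool.Agent.H270R3.CT
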