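import Pool.Agent.H270R3.CT.Stmts

set_option autoImplicit false
open scoped ComplexConjugate InnerProductSpace Topology
open Filter MeasureTheory NormedSpace

/-! Task M1 (helper62). -/

namespace Pool.Agent.H270R3.CT.M1

open Pool.Agent.H270R3.CT

variable {X : Type} [MeasurableSpace X] {μ : Measure X} {d : ℕ}

theorem aesm {Φ : X → (Ed d →L[ℂ] Ed d)} (hΦ : StronglyMeasurable Φ) (f : L2d μ d) :
    AEStronglyMeasurable (fun x => Φ x ((f : X → Ed d) x)) μ := by
  have h1 : AEStronglyMeasurable (fun x => (Φ x, (f : X → Ed d) x)) μ :=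
    hΦ.aestronglyMeasurable.prodMk (Lp.aestronglyMeasurable f)
  have h2 : Continuous (fun p : (Ed d →L[ℂ] Ed d) × Ed d => p.1 p.2) :=
    isBoundedBilinearMap_apply.continuous
  exact h2.comp_aestronglyMeasurable h1

theorem memLp {Φ : X → (Ed d →L[ℂ] Ed d)} {R : ℝ} (hΦ : MB d Φ R) (f : L2d μ d) :
    MemLp (fun x => Φ x ((f : X → Ed d) x)) 2 μ := by
  refine MemLp.of_le_mul (c := R) (Lp.memLp f) (aesm hΦ.meas f) ?_
  filter_upwards with x
  exact ((Φ x).le_opNorm _).trans (mul_le_mul_of_nonneg_right (hΦ.bd x) (norm_nonneg _))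

theorem exists_mul {Φ : X → (Ed d →L[ℂ] Ed d)} {R : ℝ} (hR : 0 ≤ R) (hΦ : MB d Φ R) :
    ∃ A : L2d μ d →L[ℂ] L2d μ d, MulM μ d Φ A ∧ ‖A‖ ≤ R := by
  let L : L2d μ d →ₗ[ℂ] L2d μ d :=
    { toFun := fun f => (memLp hΦ f).toLp _
      map_add' := by
        intro f g
        apply Lp.ext
        have h1 := (memLp hΦ (f + g)).coeFn_toLp
        have h2 := (memLp hΦ f).coeFn_toLp
        have h3 := (memLp hΦ g).coeFn_toLp
        have h4 := Lp.coeFn_add f g
        have h5 := Lp.coeFn_add ((memLp hΦ f).toLp _) ((memLp hΦ g).toLp _)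
        filter_upwards [h1, h2, h3, h4, h5] with x e1 e2 e3 e4 e5
        rw [e1, e5, Pi.add_apply, e2, e3, e4, Pi.add_apply, map_add]
      map_smul' := by
        intro c f
        apply Lp.ext
        have h1 := (memLp hΦ (c • f)).coeFn_toLp
        have h2 := (memLp hΦ f).coeFn_toLp
        have h4 := Lp.coeFn_smul c f
        have h5 := Lp.coeFn_smul c ((memLp hΦ f).toLp _)
        filter_upwards [h1, h2, h4, h5] with x e1 e2 e4 e5
        rw [e1, RingHom.id_apply, e5, Pi.smul_apply, e2, e4, Pi.smul_apply, map_smul] }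
  have hL : ∀ f : L2d μ d, (L f : X → Ed d) =ᵐ[μ] fun x => Φ x ((f : X → Ed d) x) := fun f =>
    (memLp hΦ f).coeFn_toLp
  have hb : ∀ f, ‖L f‖ ≤ R * ‖f‖ := by
    intro f
    refine Lp.norm_le_mul_norm_of_ae_le_mul ?_
    filter_upwards [hL f] with x e1
    rw [e1]
    exact ((Φ x).le_opNorm _).trans (mul_le_mul_of_nonneg_right (hΦ.bd x) (norm_nonneg _))
  exact ⟨L.mkContinuous R hb, hL, L.mkContinuous_norm_le hR hb⟩

theorem mul_mul {Φ Ψ : X → (Ed d →L[ℂ] Ed d)} {A B : L2d μ d →L[ℂ] L2d μ d}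
    (hA : MulM μ d Φ A) (hB : MulM μ d Ψ B) : MulM μ d (fun x => Φ x * Ψ x) (A * B) := by
  intro f
  have h1 := hA (B f)
  have h2 := hB f
  change (A (B f) : X → Ed d) =ᵐ[μ] _
  filter_upwards [h1, h2] with x e1 e2
  rw [e1, e2]
  rfl

theorem mul_add' {Φ Ψ : X → (Ed d →L[ℂ] Ed d)} {A B : L2d μ d →L[ℂ] L2d μ d}
    (hA : MulM μ d Φ A) (hB : MulM μ d Ψ B) : MulM μ d (fun x => Φ x + Ψ x) (A + B) := by
  intro f
  have h1 := hA f
  have h2 := hB f
  have h3 := Lp.coeFn_add (A f) (B f)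
  change ((A f + B f : L2d μ d) : X → Ed d) =ᵐ[μ] _
  filter_upwards [h1, h2, h3] with x e1 e2 e3
  rw [e3, Pi.add_apply, e1, e2]
  rfl

theorem mul_unique {Φ : X → (Ed d →L[ℂ] Ed d)} {A B : L2d μ d →L[ℂ] L2d μ d}
    (hA : MulM μ d Φ A) (hB : MulM μ d Φ B) : A = B := by
  ext1 f
  exact Lp.ext ((hA f).trans (hB f).symm)

theorem mul_star {Φ : X → (Ed d →L[ℂ] Ed d)} {R : ℝ} {A : L2d μ d →L[ℂ] L2d μ d}
    (hΦ : MB d Φ R) (hA : MulM μ d Φ A) : MulM μ d (fun x => star (Φ x)) (star A) := by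
  have hs : MB d (fun x => star (Φ x)) (max R 0) :=
    ⟨(ContinuousLinearMap.adjoint (𝕜 := ℂ) (E := Ed d)
      (F := Ed d)).continuous.comp_stronglyMeasurable hΦ.meas, fun x => by
      rw [ContinuousLinearMap.star_eq_adjoint, LinearIsometryEquiv.norm_map]
      exact (hΦ.bd x).trans (le_max_left _ _)⟩
  obtain ⟨A', hA', _⟩ := exists_mul (μ := μ) (le_max_right R 0) hs
  have : star A = A' := by
    refine ContinuousLinearMap.ext fun f => ?_
    refine ext_inner_right ℂ fun g => ?_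
    rw [ContinuousLinearMap.star_eq_adjoint, ContinuousLinearMap.adjoint_inner_left,
      L2.inner_def, L2.inner_def]
    refine integral_congr_ae ?_
    filter_upwards [hA g, hA' f] with x e1 e2
    rw [e1, e2, ContinuousLinearMap.star_eq_adjoint, ContinuousLinearMap.adjoint_inner_left]
  rw [this]
  exact hA'

theorem t_M1 : P_M1 := by
  intro X _ μ _ d
  exact ⟨fun Φ R hR hΦ => exists_mul hR hΦ, fun Φ Ψ A B hA hB => ⟨mul_mul hA hB, mul_add' hA hB⟩,
    fun Φ R A hΦ hA => mul_star hΦ hA, fun Φ A B hA hB => mul_unique hA hB⟩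

end Pool.Agent.H270R3.CT.M1
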