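import Mathlib

/-!
Hyperinvariant subspaces of operators `T = f u`, `f` in a *-algebra `N` with trace vectors, `u` a unitary
normalising `N` (helper270).  Definitions and statements of the tasks on matrix weighted translations
`T f (x) = Φ(x) f(Sx)` on `L²(μ; ℂ^d)`.
-/

set_option autoImplicit false
open scoped ComplexConjugate InnerProductSpace Topology
open Filter MeasureTheory NormedSpace

namespace Pool.Agent.H270R3.CT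

/-- The data: a *-algebra `N`, a unitary `u` normalising it, trace vectors `v j` fixed by `u`. -/
structure Dt {H : Type} [NormedAddCommGroup H] [InnerProductSpace ℂ H] [CompleteSpace H]
    {ι : Type} [Fintype ι] (N : StarSubalgebra ℂ (H →L[ℂ] H)) (u : unitary (H →L[ℂ] H))
    (v : ι → H) : Prop where
  n1 : ∀ f ∈ N, (u : H →L[ℂ] H) * f * star (u : H →L[ℂ] H) ∈ N
  n2 : ∀ f ∈ N, star (u : H →L[ℂ] H) * f * (u : H →L[ℂ] H) ∈ N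
  fx : ∀ j, (u : H →L[ℂ] H) (v j) = v j
  nm : ∑ j, ‖v j‖ ^ 2 = 1
  tr : ∀ f ∈ N, ∀ g ∈ N, ∑ j, ⟪v j, (f * g) (v j)⟫_ℂ = ∑ j, ⟪v j, (g * f) (v j)⟫_ℂ
  tot : ∀ w : H, (∀ f ∈ N, ∀ j, ⟪w, f (v j)⟫_ℂ = 0) → w = 0
  ap : ∀ n : ℤ, n ≠ 0 → ∃ c : H →L[ℂ] H, (∀ f ∈ N, c * f = f * c) ∧
    ((u ^ n : unitary (H →L[ℂ] H)) : H →L[ℂ] H) * c
      ≠ c * ((u ^ n : unitary (H →L[ℂ] H)) : H →L[ℂ] H)

/-- the abstract theorem -/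
def P_ABS : Prop := ∀ (H : Type) [NormedAddCommGroup H] [InnerProductSpace ℂ H] [CompleteSpace H]
  [TopologicalSpace.SeparableSpace H] (ι : Type) [Fintype ι]
  (N : StarSubalgebra ℂ (H →L[ℂ] H)) (u : unitary (H →L[ℂ] H)) (v : ι → H), Dt N u v →
  ∀ T : H →L[ℂ] H, T * star (u : H →L[ℂ] H) ∈ N →
  (∃ κ : ℝ, ∀ (k : ℕ) (δ : ℝ), 1 ≤ k → 0 < δ →
    k * κ ≤ (∑ j, ⟪v j, CFC.log (algebraMap ℝ (H →L[ℂ] H) δ + star (T ^ k) * T ^ k) (v j)⟫_ℂ).re) →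
  ∃ V : Submodule ℂ H, IsClosed (V : Set H) ∧ V ≠ ⊥ ∧ V ≠ ⊤ ∧
    ∀ R : H →L[ℂ] H, R * T = T * R → ∀ x ∈ V, R x ∈ V

/-! ## Matrix weights -/

/-- `ℂ^d` -/
abbrev Ed (d : ℕ) : Type := EuclideanSpace ℂ (Fin d)

/-- `L²(μ; ℂ^d)` -/
abbrev L2d {X : Type} [MeasurableSpace X] (μ : Measure X) (d : ℕ) : Type := Lp (Ed d) 2 μ

/-- `A` is multiplication by the matrix function `Φ` -/
def MulM {X : Type} [MeasurableSpace X] (μ : Measure X) (d : ℕ)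
    (Φ : X → (Ed d →L[ℂ] Ed d)) (A : L2d μ d →L[ℂ] L2d μ d) : Prop :=
  ∀ f : L2d μ d, (A f : X → Ed d) =ᵐ[μ] fun x => Φ x ((f : X → Ed d) x)

/-- bounded measurable matrix functions -/
structure MB {X : Type} [MeasurableSpace X] (d : ℕ) (Φ : X → (Ed d →L[ℂ] Ed d)) (R : ℝ) : Prop where
  meas : StronglyMeasurable Φ
  bd : ∀ x, ‖Φ x‖ ≤ R

/-- `u f = f ∘ S`, `u* f = f ∘ S⁻¹` -/
structure KU {X : Type} [MeasurableSpace X] (μ : Measure X) (d : ℕ) (S : X ≃ᵐ X)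
    (u : unitary (L2d μ d →L[ℂ] L2d μ d)) : Prop where
  h1 : ∀ f : L2d μ d, ((u : L2d μ d →L[ℂ] L2d μ d) f : X → Ed d) =ᵐ[μ]
    fun x => (f : X → Ed d) (S x)
  h2 : ∀ f : L2d μ d, ((star (u : L2d μ d →L[ℂ] L2d μ d)) f : X → Ed d) =ᵐ[μ]
    fun x => (f : X → Ed d) (S.symm x)

/-- the constant functions `e_j / √d` -/
def TV {X : Type} [MeasurableSpace X] (μ : Measure X) (d : ℕ) (v : Fin d → L2d μ d) : Prop :=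
  ∀ j, (v j : X → Ed d) =ᵐ[μ] fun _ => ((1 / Real.sqrt d : ℝ) : ℂ) • EuclideanSpace.single j (1:ℂ)

/-- Task M1: multiplication operators: existence, products, sums, adjoints, uniqueness -/
def P_M1 : Prop := ∀ (X : Type) [MeasurableSpace X] (μ : Measure X) [IsProbabilityMeasure μ] (d : ℕ),
  (∀ (Φ : X → (Ed d →L[ℂ] Ed d)) (R : ℝ), 0 ≤ R → MB d Φ R →
    ∃ A : L2d μ d →L[ℂ] L2d μ d, MulM μ d Φ A ∧ ‖A‖ ≤ R) ∧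
  (∀ (Φ Ψ : X → (Ed d →L[ℂ] Ed d)) (A B : L2d μ d →L[ℂ] L2d μ d), MulM μ d Φ A → MulM μ d Ψ B →
    MulM μ d (fun x => Φ x * Ψ x) (A * B) ∧ MulM μ d (fun x => Φ x + Ψ x) (A + B)) ∧
  (∀ (Φ : X → (Ed d →L[ℂ] Ed d)) (R : ℝ) (A : L2d μ d →L[ℂ] L2d μ d), MB d Φ R → MulM μ d Φ A →
    MulM μ d (fun x => star (Φ x)) (star A)) ∧
  (∀ (Φ : X → (Ed d →L[ℂ] Ed d)) (A B : L2d μ d →L[ℂ] L2d μ d), MulM μ d Φ A → MulM μ d Φ B →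
    A = B)

/-- Task M2: the trace vectors -/
def P_M2 : Prop := ∀ (X : Type) [MeasurableSpace X] (μ : Measure X) [IsProbabilityMeasure μ] (d : ℕ),
  1 ≤ d → ∃ v : Fin d → L2d μ d, TV μ d v ∧ ∑ j, ‖v j‖ ^ 2 = 1 ∧
  (∀ (Φ Ψ : X → (Ed d →L[ℂ] Ed d)) (R : ℝ) (A B : L2d μ d →L[ℂ] L2d μ d), MB d Φ R → MB d Ψ R →
    MulM μ d Φ A → MulM μ d Ψ B →
    ∑ j, ⟪v j, (A * B) (v j)⟫_ℂ = ∑ j, ⟪v j, (B * A) (v j)⟫_ℂ) ∧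
  (∀ (h : X → ℝ) (R : ℝ) (A : L2d μ d →L[ℂ] L2d μ d), Measurable h → (∀ x, |h x| ≤ R) →
    MulM μ d (fun x => ((h x : ℝ) : ℂ) • (1 : Ed d →L[ℂ] Ed d)) A →
    ∑ j, ⟪v j, A (v j)⟫_ℂ = ((∫ x, h x ∂μ : ℝ) : ℂ)) ∧
  (∀ w : L2d μ d, (∀ (Φ : X → (Ed d →L[ℂ] Ed d)) (R : ℝ) (A : L2d μ d →L[ℂ] L2d μ d), MB d Φ R →
    MulM μ d Φ A → ∀ j, ⟪w, A (v j)⟫_ℂ = 0) → w = 0)

/-- Task M3: the Koopman unitary -/
def P_M3 : Prop := ∀ (X : Type) [MeasurableSpace X] (μ : Measure X) [IsProbabilityMeasure μ] (d : ℕ)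
  (S : X ≃ᵐ X), MeasurePreserving S μ μ →
  (∃ u : unitary (L2d μ d →L[ℂ] L2d μ d), KU μ d S u) ∧
  ∀ u : unitary (L2d μ d →L[ℂ] L2d μ d), KU μ d S u →
  (∀ v : Fin d → L2d μ d, TV μ d v → ∀ j, (u : L2d μ d →L[ℂ] L2d μ d) (v j) = v j) ∧
  (∀ (Φ : X → (Ed d →L[ℂ] Ed d)) (A : L2d μ d →L[ℂ] L2d μ d), MulM μ d Φ A →
    MulM μ d (fun x => Φ (S x)) ((u : L2d μ d →L[ℂ] L2d μ d) * A * star (u : L2d μ d →L[ℂ] L2d μ d)) ∧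
    MulM μ d (fun x => Φ (S.symm x))
      (star (u : L2d μ d →L[ℂ] L2d μ d) * A * (u : L2d μ d →L[ℂ] L2d μ d)))

/-- Task M4: noncommutation (`c` = multiplication by the indicator of `B`) -/
def P_M4 : Prop := ∀ (X : Type) [MeasurableSpace X] (μ : Measure X) [IsProbabilityMeasure μ] (d : ℕ),
  1 ≤ d → ∀ (S : X ≃ᵐ X), MeasurePreserving S μ μ →
  (∀ n : ℕ, 1 ≤ n → ∃ B : Set X, MeasurableSet B ∧ ¬ ((S^[n]) ⁻¹' B =ᵐ[μ] B)) →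
  ∀ u : unitary (L2d μ d →L[ℂ] L2d μ d), KU μ d S u → ∀ n : ℤ, n ≠ 0 →
  ∃ c : L2d μ d →L[ℂ] L2d μ d,
    (∀ (Φ : X → (Ed d →L[ℂ] Ed d)) (A : L2d μ d →L[ℂ] L2d μ d), MulM μ d Φ A → c * A = A * c) ∧
    ((u ^ n : unitary (L2d μ d →L[ℂ] L2d μ d)) : L2d μ d →L[ℂ] L2d μ d) * c
      ≠ c * ((u ^ n : unitary (L2d μ d →L[ℂ] L2d μ d)) : L2d μ d →L[ℂ] L2d μ d)

/-- Task M5: `log` of a scalar multiplication operator (`exp (M_h) = M_{exp h}`, `CFC.log_exp`) -/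
def P_M5 : Prop := ∀ (X : Type) [MeasurableSpace X] (μ : Measure X) [IsProbabilityMeasure μ] (d : ℕ)
  (h : X → ℝ) (δ R : ℝ) (A : L2d μ d →L[ℂ] L2d μ d), 0 < δ → Measurable h →
  (∀ x, δ ≤ h x ∧ h x ≤ R) →
  MulM μ d (fun x => ((h x : ℝ) : ℂ) • (1 : Ed d →L[ℂ] Ed d)) A →
  MulM μ d (fun x => ((Real.log (h x) : ℝ) : ℂ) • (1 : Ed d →L[ℂ] Ed d)) (CFC.log A)

/-- Task M6: the lower bound `|T^k|² ≥ M_G`, `G(x) = ∏_{j<k} g(S^{-(j+1)} x)²` -/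
def P_M6 : Prop := ∀ (X : Type) [MeasurableSpace X] (μ : Measure X) [IsProbabilityMeasure μ] (d : ℕ)
  (S : X ≃ᵐ X), MeasurePreserving S μ μ →
  ∀ (Φ : X → (Ed d →L[ℂ] Ed d)) (R : ℝ) (T : L2d μ d →L[ℂ] L2d μ d), MB d Φ R →
  (∀ f : L2d μ d, (T f : X → Ed d) =ᵐ[μ] fun x => Φ x ((f : X → Ed d) (S x))) →
  ∀ g : X → ℝ, Measurable g → (∀ x, 0 < g x ∧ g x ≤ 1) → (∀ x w, g x * ‖w‖ ≤ ‖Φ x w‖) →
  ∀ (k : ℕ) (f : L2d μ d),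
    ∫ x, (∏ j ∈ Finset.range k, (g (S.symm^[j + 1] x)) ^ 2) * ‖(f : X → Ed d) x‖ ^ 2 ∂μ
      ≤ ‖(T ^ k) f‖ ^ 2

/-- the theorem on matrix weighted translations -/
def P_MAT : Prop := ∀ (X : Type) [MeasurableSpace X] [MeasurableSpace.CountablyGenerated X]
  (μ : Measure X) [IsProbabilityMeasure μ] (d : ℕ), 1 ≤ d →
  ∀ (S : X ≃ᵐ X), MeasurePreserving S μ μ →
  (∀ n : ℕ, 1 ≤ n → ∃ B : Set X, MeasurableSet B ∧ ¬ ((S^[n]) ⁻¹' B =ᵐ[μ] B)) →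
  ∀ (Φ : X → (Ed d →L[ℂ] Ed d)) (R : ℝ), StronglyMeasurable Φ → (∀ x, ‖Φ x‖ ≤ R) →
  ∀ g : X → ℝ, Measurable g → (∀ x, 0 < g x) → (∀ x w, g x * ‖w‖ ≤ ‖Φ x w‖) →
  Integrable (fun x => Real.log (g x)) μ →
  ∀ T : L2d μ d →L[ℂ] L2d μ d,
  (∀ f : L2d μ d, (T f : X → Ed d) =ᵐ[μ] fun x => Φ x ((f : X → Ed d) (S x))) →
  ∃ V : Submodule ℂ (L2d μ d), IsClosed (V : Set (L2d μ d)) ∧ V ≠ ⊥ ∧ V ≠ ⊤ ∧
    ∀ Q : L2d μ d →L[ℂ] L2d μ d, Q * T = T * Q → ∀ x ∈ V, Q x ∈ V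

end Pool.Agent.H270R3.CT
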