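import Mathlib
import Pool.Agent.H270R3.CT.Stmts

set_option autoImplicit false
open scoped ComplexConjugate InnerProductSpace Topology
open Filter MeasureTheory NormedSpace

namespace Pool.Agent.H270R3.CT.M2

open Pool.Agent.H270R3.CT

/-- `e_j / √d` -/
noncomputable def cc (d : ℕ) (j : Fin d) : Ed d :=
  ((1 / Real.sqrt d : ℝ) : ℂ) • EuclideanSpace.single j (1:ℂ)

theorem sq_real {d : ℕ} (hd : 1 ≤ d) : (1 / Real.sqrt d) * (1 / Real.sqrt d) = 1 / (d : ℝ) := by
  have : (0 : ℝ) < d := by exact_mod_cast hd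
  rw [div_mul_div_comm, Real.mul_self_sqrt this.le, one_mul]

theorem sum_cc {d : ℕ} (hd : 1 ≤ d) (M : Ed d →L[ℂ] Ed d) :
    ∑ j, ⟪cc d j, M (cc d j)⟫_ℂ =
      ((1 / d : ℝ) : ℂ) * LinearMap.trace ℂ (Ed d) (M : Ed d →ₗ[ℂ] Ed d) := by
  rw [LinearMap.trace_eq_sum_inner _ (EuclideanSpace.basisFun (Fin d) ℂ), Finset.mul_sum]
  apply Finset.sum_congr rfl
  intro j _
  unfold cc
  rw [map_smul, inner_smul_left, inner_smul_right, ← mul_assoc, Complex.conj_ofReal,
    ← Complex.ofReal_mul, sq_real hd, EuclideanSpace.basisFun_apply]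
  rfl

theorem norm_cc {d : ℕ} (hd : 1 ≤ d) (j : Fin d) : ‖cc d j‖ ^ 2 = 1 / d := by
  unfold cc
  rw [norm_smul, EuclideanSpace.norm_single, Complex.norm_real, Real.norm_eq_abs, mul_pow, sq_abs,
    sq, sq_real hd]
  simp

variable {X : Type} [MeasurableSpace X] {μ : Measure X} [IsProbabilityMeasure μ] {d : ℕ}

theorem inner_v {v : Fin d → L2d μ d} (hv : TV μ d v) {Φ : X → (Ed d →L[ℂ] Ed d)}
    {A : L2d μ d →L[ℂ] L2d μ d} (hA : MulM μ d Φ A) (w : L2d μ d) (j : Fin d) :
    ⟪w, A (v j)⟫_ℂ = ∫ x, ⟪(w : X → Ed d) x, Φ x (cc d j)⟫_ℂ ∂μ := by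
  rw [L2.inner_def]
  apply integral_congr_ae
  filter_upwards [hA (v j), hv j] with x h1 h2
  rw [h1, h2]
  rfl

theorem integrable_v {v : Fin d → L2d μ d} (hv : TV μ d v) {Φ : X → (Ed d →L[ℂ] Ed d)}
    {A : L2d μ d →L[ℂ] L2d μ d} (hA : MulM μ d Φ A) (w : L2d μ d) (j : Fin d) :
    Integrable (fun x => ⟪(w : X → Ed d) x, Φ x (cc d j)⟫_ℂ) μ := by
  refine (L2.integrable_inner (𝕜 := ℂ) w (A (v j))).congr ?_
  filter_upwards [hA (v j), hv j] with x h1 h2
  rw [h1, h2]
  rfl

theorem trace_v {v : Fin d → L2d μ d} (hv : TV μ d v) {Φ : X → (Ed d →L[ℂ] Ed d)}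
    {A : L2d μ d →L[ℂ] L2d μ d} (hA : MulM μ d Φ A) :
    ∑ j, ⟪v j, A (v j)⟫_ℂ = ∫ x, ∑ j, ⟪cc d j, Φ x (cc d j)⟫_ℂ ∂μ := by
  have h : ∀ j, (fun x => ⟪(v j : X → Ed d) x, Φ x (cc d j)⟫_ℂ) =ᵐ[μ]
      fun x => ⟪cc d j, Φ x (cc d j)⟫_ℂ := by
    intro j
    filter_upwards [hv j] with x h2
    rw [h2]
    rfl
  rw [integral_finsetSum _ (fun j _ => (integrable_v hv hA (v j) j).congr (h j))]
  apply Finset.sum_congr rfl
  intro j _
  rw [inner_v hv hA, integral_congr_ae (h j)]

theorem mulM_mul {Φ Ψ : X → (Ed d →L[ℂ] Ed d)} {A B : L2d μ d →L[ℂ] L2d μ d}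
    (hA : MulM μ d Φ A) (hB : MulM μ d Ψ B) : MulM μ d (fun x => Φ x * Ψ x) (A * B) := by
  intro f
  filter_upwards [hA (B f), hB f] with x h1 h2
  rw [mul_apply_eq_comp, h1, h2]
  rfl

/-- Task M2 (uses M1 for the existence of multiplication operators) -/
theorem t_M2 (hM1 : P_M1) : P_M2 := by
  intro X _ μ _ d hd
  have hd0 : (0 : ℝ) < d := by exact_mod_cast hd
  set v : Fin d → L2d μ d := fun j => (memLp_const (cc d j)).toLp (fun _ => cc d j) with hvdef
  have hv : TV μ d v := fun j => MemLp.coeFn_toLp _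
  refine ⟨v, hv, ?_, ?_, ?_, ?_⟩
  · have hj : ∀ j, ‖v j‖ ^ 2 = 1 / d := by
      intro j
      have h1 : ((‖v j‖ ^ 2 : ℝ) : ℂ) = ⟪v j, v j⟫_ℂ := by
        rw [inner_self_eq_norm_sq_to_K]
        push_cast
        rfl
      have h2 : ⟪v j, v j⟫_ℂ = ((1 / d : ℝ) : ℂ) := by
        rw [L2.inner_def]
        have h3 : ∫ x, ⟪(v j : X → Ed d) x, (v j : X → Ed d) x⟫_ℂ ∂μ =
            ∫ _x : X, ((1 / d : ℝ) : ℂ) ∂μ := by
          apply integral_congr_ae
          filter_upwards [hv j] with x hx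
          rw [hx]
          have h4 : ⟪cc d j, cc d j⟫_ℂ = ((‖cc d j‖ ^ 2 : ℝ) : ℂ) := by
            rw [inner_self_eq_norm_sq_to_K]
            push_cast
            rfl
          change ⟪cc d j, cc d j⟫_ℂ = _
          rw [h4, norm_cc hd]
        rw [h3, integral_const]
        simp
      exact_mod_cast h1.trans h2
    rw [Finset.sum_congr rfl (fun j _ => hj j)]
    simp
    field_simp
  · intro Φ Ψ R A B _ _ hA hB
    rw [trace_v hv (mulM_mul hA hB), trace_v hv (mulM_mul hB hA)]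
    congr 1
    funext x
    rw [sum_cc hd, sum_cc hd]
    congr 1
    exact LinearMap.trace_mul_comm ℂ (Φ x : Ed d →ₗ[ℂ] Ed d) (Ψ x : Ed d →ₗ[ℂ] Ed d)
  · intro h R A _ _ hA
    rw [trace_v hv hA, ← integral_complex_ofReal]
    congr 1
    funext x
    rw [sum_cc hd]
    have h1 : (((((h x : ℝ) : ℂ) • (1 : Ed d →L[ℂ] Ed d)) : Ed d →L[ℂ] Ed d) : Ed d →ₗ[ℂ] Ed d) =
        ((h x : ℝ) : ℂ) • (1 : Ed d →ₗ[ℂ] Ed d) := by
      ext; rfl
    have hdc : (d : ℂ) ≠ 0 := by
      have : (d : ℝ) ≠ 0 := hd0.ne'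
      exact_mod_cast this
    rw [h1, map_smul, LinearMap.trace_one, finrank_euclideanSpace]
    simp only [Fintype.card_fin, smul_eq_mul]
    push_cast
    field_simp
  · intro w hw
    set j0 : Fin d := ⟨0, hd⟩ with hj0
    have key : ∀ R : ℕ, ∀ᵐ x ∂μ, ‖(w : X → Ed d) x‖ ≤ R → (w : X → Ed d) x = 0 := by
      intro R
      set S : Set X := {x | ‖(w : X → Ed d) x‖ ≤ R} with hS
      have hwm : StronglyMeasurable (w : X → Ed d) := Lp.stronglyMeasurable w
      have hSm : MeasurableSet S := measurableSet_le hwm.norm.measurable measurable_const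
      set L : Ed d →L[ℂ] ℂ := innerSL ℂ (EuclideanSpace.single j0 (1:ℂ)) with hL
      set Φ : X → (Ed d →L[ℂ] Ed d) := S.indicator (fun x => L.smulRight ((w : X → Ed d) x)) with hΦ
      have hΦm : StronglyMeasurable Φ := by
        apply StronglyMeasurable.indicator _ hSm
        exact (ContinuousLinearMap.smulRightL ℂ (Ed d) (Ed d) L).continuous.comp_stronglyMeasurable
          hwm
      have hLn : ‖L‖ ≤ 1 := by
        rw [hL, innerSL_apply_norm, EuclideanSpace.norm_single]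
        simp
      have hΦb : ∀ x, ‖Φ x‖ ≤ R := by
        intro x
        by_cases hx : x ∈ S
        · rw [hΦ, Set.indicator_of_mem hx, ContinuousLinearMap.norm_smulRight_apply]
          have h2 : ‖(w : X → Ed d) x‖ ≤ R := hx
          have h3 := norm_nonneg ((w : X → Ed d) x)
          nlinarith [norm_nonneg L]
        · rw [hΦ, Set.indicator_of_notMem hx, norm_zero]
          positivity
      obtain ⟨A, hA, -⟩ := (hM1 X μ d).1 Φ R (by positivity) ⟨hΦm, hΦb⟩
      have h0 := hw Φ R A ⟨hΦm, hΦb⟩ hA j0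
      rw [inner_v hv hA] at h0
      have hpt : ∀ x, ⟪(w : X → Ed d) x, Φ x (cc d j0)⟫_ℂ =
          ((S.indicator (fun x => (1 / Real.sqrt d) * ‖(w : X → Ed d) x‖ ^ 2) x : ℝ) : ℂ) := by
        intro x
        by_cases hx : x ∈ S
        · rw [hΦ, Set.indicator_of_mem hx, Set.indicator_of_mem hx,
            ContinuousLinearMap.smulRight_apply, inner_smul_right, inner_self_eq_norm_sq_to_K]
          have h1 : L (cc d j0) = ((1 / Real.sqrt d : ℝ) : ℂ) := by
            rw [hL, innerSL_apply_apply]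
            unfold cc
            rw [inner_smul_right, EuclideanSpace.inner_single_left]
            simp
          rw [h1]
          push_cast
          rfl
        · rw [hΦ, Set.indicator_of_notMem hx, Set.indicator_of_notMem hx]
          simp
      have hint := integrable_v hv hA w j0
      simp only [hpt] at h0 hint
      rw [integral_complex_ofReal] at h0
      have h1 : ∫ x, S.indicator (fun x => (1 / Real.sqrt d) * ‖(w : X → Ed d) x‖ ^ 2) x ∂μ = 0 := by
        exact_mod_cast h0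
      have hint2 : Integrable (S.indicator (fun x => (1 / Real.sqrt d) * ‖(w : X → Ed d) x‖ ^ 2)) μ := by
        have := hint.re
        simpa using this
      rw [integral_eq_zero_iff_of_nonneg (fun x => by
        apply Set.indicator_nonneg
        intro x _
        positivity) hint2] at h1
      filter_upwards [h1] with x hx hxR
      rw [Set.indicator_of_mem (show x ∈ S from hxR)] at hx
      have h2 : (0 : ℝ) < 1 / Real.sqrt d := by positivity
      have h3 : ‖(w : X → Ed d) x‖ ^ 2 = 0 := by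
        rcases mul_eq_zero.1 hx with h | h
        · exact absurd h h2.ne'
        · exact h
      exact norm_eq_zero.1 (pow_eq_zero_iff (by norm_num) |>.1 h3)
    rw [Lp.eq_zero_iff_ae_eq_zero]
    have hall := ae_all_iff.2 key
    filter_upwards [hall] with x hx
    obtain ⟨R, hR⟩ := exists_nat_ge ‖(w : X → Ed d) x‖
    exact hx R hR

end Pool.Agent.H270R3.CT.M2
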