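import Pool.Agent.H270R3.CT.Stmts

set_option autoImplicit false
open scoped ComplexConjugate InnerProductSpace Topology
open Filter MeasureTheory NormedSpace

namespace Pool.Agent.H270R3.CT.M3

variable {X : Type} [MeasurableSpace X]

/-- composition with a measure preserving map as a continuous linear map -/
noncomputable def K (μ : Measure X) (d : ℕ) (S : X → X) (hS : MeasurePreserving S μ μ) :
    L2d μ d →L[ℂ] L2d μ d :=
  (Lp.compMeasurePreservingₗᵢ ℂ S hS : Lp (Ed d) 2 μ →ₗᵢ[ℂ] Lp (Ed d) 2 μ).toContinuousLinearMap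

theorem K_ae (μ : Measure X) (d : ℕ) (S : X → X) (hS : MeasurePreserving S μ μ) (f : L2d μ d) :
    (K μ d S hS f : X → Ed d) =ᵐ[μ] fun x => (f : X → Ed d) (S x) :=
  Lp.coeFn_compMeasurePreserving f hS

theorem K_inner (μ : Measure X) (d : ℕ) (S : X → X) (hS : MeasurePreserving S μ μ)
    (f g : L2d μ d) : ⟪K μ d S hS f, K μ d S hS g⟫_ℂ = ⟪f, g⟫_ℂ :=
  (Lp.compMeasurePreservingₗᵢ ℂ S hS : Lp (Ed d) 2 μ →ₗᵢ[ℂ] Lp (Ed d) 2 μ).inner_map_map f g

theorem ae_comp {μ : Measure X} {S : X → X} (hS : MeasurePreserving S μ μ) {β : Type}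
    {f g : X → β} (h : f =ᵐ[μ] g) : (fun x => f (S x)) =ᵐ[μ] fun x => g (S x) :=
  hS.quasiMeasurePreserving.ae_eq_comp h

theorem K_comp (μ : Measure X) (d : ℕ) (S T : X → X) (hS : MeasurePreserving S μ μ)
    (hT : MeasurePreserving T μ μ) (h : ∀ x, T (S x) = x) : K μ d S hS * K μ d T hT = 1 := by
  ext1 f
  apply Lp.ext
  refine (K_ae μ d S hS _).trans ((ae_comp hS (K_ae μ d T hT f)).trans ?_)
  refine Filter.Eventually.of_forall fun x => ?_
  simp only [h, one_apply_eq_self]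

theorem exists_u (μ : Measure X) (d : ℕ) (S : X ≃ᵐ X) (hS : MeasurePreserving S μ μ) :
    ∃ u : unitary (L2d μ d →L[ℂ] L2d μ d), KU μ d S u := by
  have hS' : MeasurePreserving S.symm μ μ := hS.symm S
  have h1 : K μ d S hS * K μ d S.symm hS' = 1 := K_comp μ d S S.symm hS hS' (by simp)
  have h2 : K μ d S.symm hS' * K μ d S hS = 1 := K_comp μ d S.symm S hS' hS (by simp)
  have hst : star (K μ d S hS) = K μ d S.symm hS' := by
    rw [ContinuousLinearMap.star_eq_adjoint]
    symm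
    rw [ContinuousLinearMap.eq_adjoint_iff]
    intro x y
    have e : y = K μ d S.symm hS' (K μ d S hS y) := by
      have := DFunLike.congr_fun h2 y
      exact this.symm
    conv_lhs => rw [e]
    rw [K_inner]
  refine ⟨⟨K μ d S hS, ?_⟩, ?_, ?_⟩
  · rw [Unitary.mem_iff, hst]
    exact ⟨h2, h1⟩
  · intro f
    exact K_ae μ d S hS f
  · intro f
    show ((star (K μ d S hS)) f : X → Ed d) =ᵐ[μ] _
    rw [hst]
    exact K_ae μ d S.symm hS' f

theorem t_M3 : P_M3 := by
  intro X _ μ _ d S hS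
  have hS' : MeasurePreserving S.symm μ μ := hS.symm S
  refine ⟨exists_u μ d S hS, fun u hu => ⟨fun v hv j => ?_, fun Φ A hA => ⟨?_, ?_⟩⟩⟩
  · apply Lp.ext
    refine (hu.h1 (v j)).trans ((ae_comp hS (hv j)).trans ?_)
    exact (hv j).symm
  · intro f
    refine (hu.h1 _).trans ((ae_comp hS (hA _)).trans ?_)
    filter_upwards [ae_comp hS (hu.h2 f)] with x hx
    exact congrArg (Φ (S x)) (hx.trans (by rw [MeasurableEquiv.symm_apply_apply]))
  · intro f
    refine (hu.h2 _).trans ((ae_comp hS' (hA _)).trans ?_)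
    filter_upwards [ae_comp hS' (hu.h1 f)] with x hx
    exact congrArg (Φ (S.symm x)) (hx.trans (by rw [MeasurableEquiv.apply_symm_apply]))

end Pool.Agent.H270R3.CT.M3
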