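import Pool.Agent.H270R3.CT.M1
import Pool.Agent.H270R3.CT.M3

set_option autoImplicit false
open scoped ComplexConjugate InnerProductSpace Topology
open Filter MeasureTheory NormedSpace

/-! Task M4 (helper879). -/

namespace Pool.Agent.H270R3.CT.M4

open Pool.Agent.H270R3.CT

variable {X : Type} [MeasurableSpace X] {μ : Measure X} {d : ℕ}

/-- if a unitary commutes with `c`, so does its inverse -/
theorem comm_inv {A : Type} [Monoid A] [StarMul A] (w : unitary A) (c : A)
    (h : (w : A) * c = c * (w : A)) :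
    ((w⁻¹ : unitary A) : A) * c = c * ((w⁻¹ : unitary A) : A) := by
  have e1 : ((w⁻¹ : unitary A) : A) * (w : A) = 1 := by
    rw [← Submonoid.coe_mul, inv_mul_cancel, Submonoid.coe_one]
  have e2 : (w : A) * ((w⁻¹ : unitary A) : A) = 1 := by
    rw [← Submonoid.coe_mul, mul_inv_cancel, Submonoid.coe_one]
  calc ((w⁻¹ : unitary A) : A) * c = ((w⁻¹ : unitary A) : A) * c * ((w : A) * ((w⁻¹ : unitary A) : A)) := by
        rw [e2, mul_one]
    _ = ((w⁻¹ : unitary A) : A) * (c * (w : A)) * ((w⁻¹ : unitary A) : A) := by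
        simp only [mul_assoc]
    _ = ((w⁻¹ : unitary A) : A) * ((w : A) * c) * ((w⁻¹ : unitary A) : A) := by rw [h]
    _ = (((w⁻¹ : unitary A) : A) * (w : A)) * c * ((w⁻¹ : unitary A) : A) := by
        simp only [mul_assoc]
    _ = c * ((w⁻¹ : unitary A) : A) := by rw [e1, one_mul]

/-- the powers of the Koopman unitary -/
theorem pow_ae {S : X ≃ᵐ X} (hS : MeasurePreserving S μ μ)
    {u : unitary (L2d μ d →L[ℂ] L2d μ d)} (hu : KU μ d S u) (m : ℕ) (f : L2d μ d) :
    (((u : L2d μ d →L[ℂ] L2d μ d) ^ m) f : X → Ed d) =ᵐ[μ]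
      fun x => (f : X → Ed d) ((S^[m]) x) := by
  induction m generalizing f with
  | zero => exact Filter.Eventually.of_forall fun x => rfl
  | succ m ih =>
    rw [pow_succ]
    refine (ih ((u : L2d μ d →L[ℂ] L2d μ d) f)).trans ?_
    have h1 := M3.ae_comp (hS.iterate m) (hu.h1 f)
    refine h1.trans (Filter.Eventually.of_forall fun x => ?_)
    simp only [Function.iterate_succ_apply']

/-- the matrix function `1_B · I` -/
noncomputable def PhiB (d : ℕ) (B : Set X) : X → (Ed d →L[ℂ] Ed d) :=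
  B.indicator (fun _ => (1 : Ed d →L[ℂ] Ed d))

theorem mb (B : Set X) (hB : MeasurableSet B) : MB d (PhiB d B) 1 := by
  refine ⟨stronglyMeasurable_const.indicator hB, fun x => ?_⟩
  unfold PhiB
  refine (norm_indicator_le_norm_self _ _).trans ?_
  exact ContinuousLinearMap.norm_id_le

omit [MeasurableSpace X] in
theorem phi_comm (B : Set X) (x : X) (L : Ed d →L[ℂ] Ed d) : PhiB d B x * L = L * PhiB d B x := by
  unfold PhiB
  by_cases h : x ∈ B
  · rw [Set.indicator_of_mem h, one_mul, mul_one]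
  · rw [Set.indicator_of_notMem h, zero_mul, mul_zero]

theorem t_M4 : P_M4 := by
  intro X _ μ _ d hd S hS hap u hu n hn
  have hm : 1 ≤ n.natAbs := Nat.one_le_iff_ne_zero.mpr (Int.natAbs_ne_zero.mpr hn)
  obtain ⟨B, hB, hBn⟩ := hap n.natAbs hm
  obtain ⟨c, hc, -⟩ := M1.exists_mul (μ := μ) zero_le_one (mb (d := d) B hB)
  refine ⟨c, fun Φ A hA => ?_, fun h => hBn ?_⟩
  · refine M1.mul_unique (M1.mul_mul hc hA) ?_
    have h2 := M1.mul_mul hA hc
    have h3 : (fun x => PhiB d B x * Φ x) = fun x => Φ x * PhiB d B x :=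
      funext fun x => phi_comm B x (Φ x)
    rw [h3]
    exact h2
  · -- reduce to a positive power
    have key : ((u : L2d μ d →L[ℂ] L2d μ d) ^ n.natAbs) * c
        = c * ((u : L2d μ d →L[ℂ] L2d μ d) ^ n.natAbs) := by
      rcases Int.natAbs_eq n with hn' | hn'
      · rw [hn', zpow_natCast, SubmonoidClass.coe_pow] at h
        exact h
      · rw [hn', zpow_neg, zpow_natCast] at h
        have h' := comm_inv _ c h
        rw [inv_inv, SubmonoidClass.coe_pow] at h'
        exact h'
    set m := n.natAbs with hmdef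
    -- the test vector
    let j : Fin d := ⟨0, hd⟩
    let e : Ed d := EuclideanSpace.single j (1 : ℂ)
    have he : e ≠ 0 := by
      intro h0
      have := congrArg (fun w : Ed d => ‖w‖) h0
      simp [e] at this
    let v : L2d μ d := (memLp_const (μ := μ) (p := 2) e).toLp _
    have hv : (v : X → Ed d) =ᵐ[μ] fun _ => e := (memLp_const (μ := μ) (p := 2) e).coeFn_toLp
    have hit := hS.iterate m
    have a1 : ((((u : L2d μ d →L[ℂ] L2d μ d) ^ m) * c) v : X → Ed d) =ᵐ[μ]
        fun x => PhiB d B ((S^[m]) x) e := by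
      have b1 := pow_ae hS hu m (c v)
      have b2 := M3.ae_comp hit (hc v)
      have b3 := M3.ae_comp hit hv
      change ((((u : L2d μ d →L[ℂ] L2d μ d) ^ m)) (c v) : X → Ed d) =ᵐ[μ] _
      filter_upwards [b1, b2, b3] with x c1 c2 c3
      rw [c1, c2, c3]
    have a2 : ((c * ((u : L2d μ d →L[ℂ] L2d μ d) ^ m)) v : X → Ed d) =ᵐ[μ]
        fun x => PhiB d B x e := by
      have b1 := hc (((u : L2d μ d →L[ℂ] L2d μ d) ^ m) v)
      have b2 := pow_ae hS hu m v
      have b3 := M3.ae_comp hit hv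
      change (c (((u : L2d μ d →L[ℂ] L2d μ d) ^ m) v) : X → Ed d) =ᵐ[μ] _
      filter_upwards [b1, b2, b3] with x c1 c2 c3
      rw [c1, c2, c3]
    rw [key] at a1
    have a3 := a1.symm.trans a2
    filter_upwards [a3] with x hx
    unfold PhiB at hx
    apply propext
    change (S^[m]) x ∈ B ↔ x ∈ B
    by_cases h1 : (S^[m]) x ∈ B <;> by_cases h2 : x ∈ B
    · exact ⟨fun _ => h2, fun _ => h1⟩
    · rw [Set.indicator_of_mem h1, Set.indicator_of_notMem h2] at hx
      exact absurd hx he
    · rw [Set.indicator_of_notMem h1, Set.indicator_of_mem h2] at hx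
      exact absurd hx.symm he
    · exact ⟨fun h => absurd h h1, fun h => absurd h h2⟩

end Pool.Agent.H270R3.CT.M4
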