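import Pool.Agent.H270R3.CT.Stmts

/-! Task M5 (helper603): the logarithm of a scalar multiplication operator. -/

set_option autoImplicit false
set_option linter.unusedSectionVars false
set_option maxHeartbeats 4000000
open scoped ComplexConjugate InnerProductSpace Topology
open Filter MeasureTheory NormedSpace

namespace Pool.Agent.H270R3.CT.M5

open Pool.Agent.H270R3.CT

variable {X : Type} [MeasurableSpace X] {μ : Measure X} {d : ℕ}

/-- scalar matrix function -/
noncomputable def ms (d : ℕ) (t : X → ℝ) : X → (Ed d →L[ℂ] Ed d) :=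
  fun x => ((t x : ℝ) : ℂ) • (1 : Ed d →L[ℂ] Ed d)

lemma ms_apply (t : X → ℝ) (x : X) (w : Ed d) : ms d t x w = ((t x : ℝ) : ℂ) • w := rfl

lemma ms_norm (t : X → ℝ) (x : X) : ‖ms d t x‖ ≤ |t x| := by
  unfold ms
  rw [norm_smul, Complex.norm_real, Real.norm_eq_abs]
  have h1 : ‖(1 : Ed d →L[ℂ] Ed d)‖ ≤ 1 := ContinuousLinearMap.norm_id_le
  calc |t x| * ‖(1 : Ed d →L[ℂ] Ed d)‖ ≤ |t x| * 1 := by gcongr
    _ = |t x| := mul_one _

lemma ms_meas (t : X → ℝ) (ht : Measurable t) : StronglyMeasurable (ms d t) := by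
  unfold ms
  exact (Complex.measurable_ofReal.comp ht).stronglyMeasurable.smul_const _

lemma ms_MB (t : X → ℝ) (ht : Measurable t) (C : ℝ) (hC : ∀ x, |t x| ≤ C) : MB d (ms d t) C :=
  ⟨ms_meas t ht, fun x => (ms_norm t x).trans (hC x)⟩

lemma ms_mul (s t : X → ℝ) (x : X) : ms d s x * ms d t x = ms d (fun x => s x * t x) x := by
  unfold ms
  rw [smul_mul_smul_comm, one_mul, ← Complex.ofReal_mul]

lemma ms_add (s t : X → ℝ) (x : X) : ms d s x + ms d t x = ms d (fun x => s x + t x) x := by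
  ext w : 1
  rw [add_apply, ms_apply, ms_apply, ms_apply, ← add_smul, ← Complex.ofReal_add]

lemma ms_star (t : X → ℝ) (x : X) : star (ms d t x) = ms d t x := by
  unfold ms
  rw [star_smul, star_one]
  congr 1
  exact Complex.conj_ofReal _

lemma mul_congr {Φ Ψ : X → (Ed d →L[ℂ] Ed d)} (h : ∀ x, Φ x = Ψ x) {A : L2d μ d →L[ℂ] L2d μ d}
    (hA : MulM μ d Φ A) : MulM μ d Ψ A := by
  have : Φ = Ψ := funext h
  rwa [this] at hA

lemma mul_zero' : MulM μ d (ms d (fun _ => (0 : ℝ))) (0 : L2d μ d →L[ℂ] L2d μ d) := by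
  intro f
  have h := Lp.coeFn_zero (Ed d) 2 μ
  filter_upwards [h] with x hx
  rw [ms_apply, Complex.ofReal_zero, zero_smul]
  exact hx

lemma mul_one' : MulM μ d (ms d (fun _ => (1 : ℝ))) (1 : L2d μ d →L[ℂ] L2d μ d) := by
  intro f
  refine Eventually.of_forall fun x => ?_
  simp [ms]

lemma mul_smul' {t : X → ℝ} {A : L2d μ d →L[ℂ] L2d μ d} (hA : MulM μ d (ms d t) A) (c : ℝ) :
    MulM μ d (ms d (fun x => c * t x)) (((c : ℝ) : ℂ) • A) := by
  intro f
  have h := Lp.coeFn_smul ((c : ℝ) : ℂ) (A f)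
  filter_upwards [h, hA f] with x hx hx2
  rw [smul_apply, hx, Pi.smul_apply, hx2, ms_apply, ms_apply, smul_smul, ← Complex.ofReal_mul]

lemma mul_sub' {s t : X → ℝ} {A B : L2d μ d →L[ℂ] L2d μ d} (hA : MulM μ d (ms d s) A)
    (hB : MulM μ d (ms d t) B) : MulM μ d (ms d (fun x => s x - t x)) (A - B) := by
  intro f
  have h := Lp.coeFn_sub (A f) (B f)
  filter_upwards [h, hA f, hB f] with x hx hx2 hx3
  rw [sub_apply, hx, Pi.sub_apply, hx2, hx3, ms_apply, ms_apply, ms_apply, ← sub_smul,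
    ← Complex.ofReal_sub]

/-- remainder of the exponential series -/
lemma exp_rem (t C : ℝ) (hC : |t| ≤ C) (n : ℕ) :
    |Real.exp t - ∑ k ∈ Finset.range n, t ^ k / (k.factorial : ℝ)| ≤
      Real.exp C - ∑ k ∈ Finset.range n, C ^ k / (k.factorial : ℝ) := by
  have hs : ∀ s : ℝ, HasSum (fun k : ℕ => s ^ k / (k.factorial : ℝ)) (Real.exp s) := by
    intro s
    rw [Real.exp_eq_exp_ℝ]
    exact NormedSpace.expSeries_div_hasSum_exp s
  have hC0 : 0 ≤ C := (abs_nonneg t).trans hC
  have e : ∀ s : ℝ, Real.exp s - ∑ k ∈ Finset.range n, s ^ k / (k.factorial : ℝ) =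
      ∑' k : ℕ, s ^ (k + n) / ((k + n).factorial : ℝ) := by
    intro s
    have := (hs s).summable.sum_add_tsum_nat_add n
    rw [(hs s).tsum_eq] at this
    linarith
  rw [e, e]
  have sC : Summable (fun k : ℕ => C ^ (k + n) / ((k + n).factorial : ℝ)) :=
    (summable_nat_add_iff n).2 (hs C).summable
  have hb : ∀ k : ℕ, ‖t ^ (k + n) / ((k + n).factorial : ℝ)‖ ≤
      C ^ (k + n) / ((k + n).factorial : ℝ) := by
    intro k
    rw [norm_div, norm_pow, Real.norm_eq_abs, Real.norm_of_nonneg (Nat.cast_nonneg _)]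
    gcongr
  have := tsum_of_norm_bounded sC.hasSum hb
  exact this

theorem t_M5 (h1 : P_M1) : P_M5 := by
  intro X _ μ _ d h δ R A hδ hh hhR hA
  obtain ⟨m1, m2, m3, m4⟩ := h1 X μ d
  set l : X → ℝ := fun x => Real.log (h x) with hl
  have hlm : Measurable l := Real.measurable_log.comp hh
  obtain ⟨C, hC⟩ : ∃ C : ℝ, ∀ x, |l x| ≤ C := by
    refine ⟨max |Real.log δ| |Real.log R|, fun x => ?_⟩
    obtain ⟨a1, a2⟩ := hhR x
    have b1 : Real.log δ ≤ l x := Real.log_le_log hδ a1
    have b2 : l x ≤ Real.log R := Real.log_le_log (hδ.trans_le a1) a2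
    exact abs_le_max_abs_abs b1 b2
  by_cases hX : Nonempty X
  swap
  · -- trivial case
    intro f
    refine Eventually.of_forall fun x => (hX ⟨x⟩).elim
  have hC0 : 0 ≤ C := (abs_nonneg _).trans (hC hX.some)
  obtain ⟨B, hB, -⟩ := m1 (ms d l) C hC0 (ms_MB l hlm C hC)
  have hBsa : IsSelfAdjoint B := by
    have h2 := m3 _ C B (ms_MB l hlm C hC) hB
    have h3 : MulM μ d (ms d l) (star B) := mul_congr (fun x => ms_star l x) h2
    exact m4 _ _ _ h3 hB
  -- powers
  have hpow : ∀ n : ℕ, MulM μ d (ms d (fun x => (l x) ^ n)) (B ^ n) := by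
    intro n
    induction n with
    | zero => simpa using (mul_one' (μ := μ) (d := d))
    | succ n ih =>
      rw [pow_succ]
      exact mul_congr (fun x => by rw [ms_mul]; rfl) (m2 _ _ _ _ ih hB).1
  set Sn : ℕ → (L2d μ d →L[ℂ] L2d μ d) := fun n =>
    ∑ k ∈ Finset.range n, ((k.factorial : ℂ)⁻¹) • B ^ k with hSn
  have hsum : ∀ n : ℕ, MulM μ d (ms d (fun x => ∑ k ∈ Finset.range n, (l x) ^ k / (k.factorial : ℝ)))
      (Sn n) := by
    intro n
    induction n with
    | zero => simpa [hSn] using (mul_zero' (μ := μ) (d := d))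
    | succ n ih =>
      have h2 := mul_smul' (hpow n) (((n.factorial : ℝ))⁻¹)
      have h3 := (m2 _ _ _ _ ih h2).2
      have e : Sn (n + 1) = Sn n + (((((n.factorial : ℝ))⁻¹ : ℝ) : ℂ)) • B ^ n := by
        simp only [hSn]
        rw [Finset.sum_range_succ]
        congr 2
        push_cast
        rfl
      rw [e]
      refine mul_congr (fun x => ?_) h3
      rw [ms_add]
      congr 1
      funext y
      rw [Finset.sum_range_succ]
      ring
  set r : ℕ → ℝ := fun n => Real.exp C - ∑ k ∈ Finset.range n, C ^ k / (k.factorial : ℝ) with hr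
  have hr0 : Tendsto r atTop (𝓝 0) := by
    have hs : HasSum (fun k : ℕ => C ^ k / (k.factorial : ℝ)) (Real.exp C) := by
      rw [Real.exp_eq_exp_ℝ]
      exact NormedSpace.expSeries_div_hasSum_exp C
    have := (tendsto_const_nhds (x := Real.exp C)).sub hs.tendsto_sum_nat
    rwa [sub_self] at this
  have hexp : ∀ x, h x = Real.exp (l x) := fun x => by
    simp only [hl]
    rw [Real.exp_log (hδ.trans_le (hhR x).1)]
  have hdiff : ∀ n, ‖A - Sn n‖ ≤ r n := by
    intro n
    have h2 : MulM μ d (ms d h) A := hA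
    have h3 := mul_sub' h2 (hsum n)
    have hbd : ∀ x, |h x - ∑ k ∈ Finset.range n, (l x) ^ k / (k.factorial : ℝ)| ≤ r n := by
      intro x
      rw [hexp x]
      exact exp_rem (l x) C (hC x) n
    have hm : Measurable (fun x => h x - ∑ k ∈ Finset.range n, (l x) ^ k / (k.factorial : ℝ)) := by
      refine hh.sub ?_
      refine Finset.measurable_sum _ fun k _ => ?_
      exact (hlm.pow_const k).div_const _
    have hrn : 0 ≤ r n := (abs_nonneg _).trans (hbd hX.some)
    obtain ⟨A', hA', hn'⟩ := m1 _ (r n) hrn (ms_MB _ hm (r n) hbd)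
    rw [← m4 _ _ _ hA' h3]
    exact hn'
  have hlim1 : Tendsto Sn atTop (𝓝 A) := by
    rw [tendsto_iff_norm_sub_tendsto_zero]
    refine squeeze_zero (fun n => norm_nonneg _) (fun n => ?_) hr0
    rw [norm_sub_rev]
    exact hdiff n
  have hlim2 : Tendsto Sn atTop (𝓝 (NormedSpace.exp B)) :=
    (NormedSpace.exp_series_hasSum_exp' (𝕂 := ℂ) B).tendsto_sum_nat
  have hAB : A = NormedSpace.exp B := tendsto_nhds_unique hlim1 hlim2
  have hlog : CFC.log A = B := by
    rw [hAB]
    exact CFC.log_exp B hBsa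
  rw [hlog]
  exact hB

end Pool.Agent.H270R3.CT.M5
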