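import Pool.Agent.H270R3.CT.Stmts

/-!
Task M6 of helper270's project (by helper857): the lower bound for `‖T^k f‖²`.
-/

set_option autoImplicit false
open scoped ComplexConjugate InnerProductSpace Topology
open Filter MeasureTheory NormedSpace

namespace Pool.Agent.H270R3.CT.M6

variable {X : Type} [MeasurableSpace X] {μ : Measure X} {d : ℕ}

theorem norm_sq_eq (f : L2d μ d) : ‖f‖ ^ 2 = ∫ x, ‖(f : X → Ed d) x‖ ^ 2 ∂μ := by
  have h1 : (⟪f, f⟫_ℂ : ℂ) = ∫ x, ⟪(f : X → Ed d) x, (f : X → Ed d) x⟫_ℂ ∂μ :=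
    MeasureTheory.L2.inner_def f f
  have h2 : (fun x => (⟪(f : X → Ed d) x, (f : X → Ed d) x⟫_ℂ : ℂ)) =
      fun x => (((‖(f : X → Ed d) x‖ ^ 2 : ℝ)) : ℂ) := by
    funext x
    rw [inner_self_eq_norm_sq_to_K]
    push_cast
    rfl
  rw [h2, integral_complex_ofReal, inner_self_eq_norm_sq_to_K] at h1
  have h3 : ((‖f‖ ^ 2 : ℝ) : ℂ) = ((∫ x, ‖(f : X → Ed d) x‖ ^ 2 ∂μ : ℝ) : ℂ) := by
    push_cast
    exact h1
  exact_mod_cast h3

theorem integrable_sq (f : L2d μ d) : Integrable (fun x => ‖(f : X → Ed d) x‖ ^ 2) μ :=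
  (MeasureTheory.memLp_two_iff_integrable_sq_norm (Lp.aestronglyMeasurable f)).1 (Lp.memLp f)

/-- the weight -/
noncomputable def wt (S : X ≃ᵐ X) (g : X → ℝ) (k : ℕ) (x : X) : ℝ :=
  ∏ j ∈ Finset.range k, (g (S.symm^[j + 1] x)) ^ 2

theorem wt_meas (S : X ≃ᵐ X) {g : X → ℝ} (hg : Measurable g) (k : ℕ) :
    Measurable (wt S g k) := by
  unfold wt
  exact Finset.measurable_prod _ fun j _ =>
    (hg.comp (S.symm.measurable.iterate (j + 1))).pow_const 2

theorem wt_nonneg (S : X ≃ᵐ X) {g : X → ℝ} (k : ℕ) (x : X) : 0 ≤ wt S g k x :=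
  Finset.prod_nonneg fun _ _ => sq_nonneg _

theorem wt_le_one (S : X ≃ᵐ X) {g : X → ℝ} (hg : ∀ x, 0 < g x ∧ g x ≤ 1) (k : ℕ) (x : X) :
    wt S g k x ≤ 1 :=
  Finset.prod_le_one (fun _ _ => sq_nonneg _) fun _ _ =>
    pow_le_one₀ (hg _).1.le (hg _).2

theorem wt_succ (S : X ≃ᵐ X) (g : X → ℝ) (k : ℕ) (y : X) :
    wt S g (k + 1) y = wt S g k (S.symm y) * g (S.symm y) ^ 2 := by
  unfold wt
  rw [Finset.prod_range_succ']
  rfl

theorem int_wt [IsProbabilityMeasure μ] (S : X ≃ᵐ X) {g : X → ℝ} (hg : Measurable g)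
    (hg1 : ∀ x, 0 < g x ∧ g x ≤ 1) (k : ℕ) {F : X → ℝ} (hF : Integrable F μ) :
    Integrable (fun x => wt S g k x * F x) μ := by
  refine hF.bdd_mul (c := 1) (wt_meas S hg k).aestronglyMeasurable (ae_of_all _ fun x => ?_)
  rw [Real.norm_eq_abs, abs_of_nonneg (wt_nonneg S k x)]
  exact wt_le_one S hg1 k x

end Pool.Agent.H270R3.CT.M6

namespace Pool.Agent.H270R3.CT

open M6

theorem t_M6 : P_M6 := by
  intro X _ μ _ d S hS Φ R T hΦ hT g hg hg1 hgΦ k
  change ∀ f : L2d μ d, ∫ x, wt S g k x * ‖(f : X → Ed d) x‖ ^ 2 ∂μ ≤ ‖(T ^ k) f‖ ^ 2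
  induction k with
  | zero =>
    intro f
    have h : ∀ x, wt S g 0 x = 1 := fun x => by simp [wt]
    simp only [h, one_mul, pow_zero]
    rw [← norm_sq_eq]
    exact le_of_eq rfl
  | succ k ih =>
    intro f
    have e1 : (T ^ (k + 1)) f = (T ^ k) (T f) := by
      rw [pow_succ]; rfl
    rw [e1]
    refine le_trans ?_ (ih (T f))
    -- change of variables
    have hcv : ∫ y, wt S g (k + 1) y * ‖(f : X → Ed d) y‖ ^ 2 ∂μ =
        ∫ x, wt S g k x * (g x ^ 2 * ‖(f : X → Ed d) (S x)‖ ^ 2) ∂μ := by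
      rw [← hS.integral_comp' (f := S)]
      refine integral_congr_ae (ae_of_all _ fun x => ?_)
      simp only [wt_succ, MeasurableEquiv.symm_apply_apply]
      ring
    rw [hcv]
    have i1 : Integrable (fun x => ‖(f : X → Ed d) (S x)‖ ^ 2) μ :=
      (hS.integrable_comp_emb S.measurableEmbedding).2 (integrable_sq f)
    have i2 : Integrable (fun x => g x ^ 2 * ‖(f : X → Ed d) (S x)‖ ^ 2) μ := by
      refine i1.bdd_mul (c := 1) (hg.pow_const 2).aestronglyMeasurable (ae_of_all _ fun x => ?_)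
      rw [Real.norm_eq_abs, abs_of_nonneg (sq_nonneg _)]
      exact pow_le_one₀ (hg1 x).1.le (hg1 x).2
    refine integral_mono_ae (int_wt S hg hg1 k i2) (int_wt S hg hg1 k (integrable_sq (T f))) ?_
    filter_upwards [hT f] with x hx
    refine mul_le_mul_of_nonneg_left ?_ (wt_nonneg S k x)
    rw [hx, ← mul_pow]
    exact pow_le_pow_left₀ (mul_nonneg (hg1 x).1.le (norm_nonneg _)) (hgΦ x _) 2

end Pool.Agent.H270R3.CT
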