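import Pool.Agent.H270R3.CT.Rot
import Pool.Agent.H417B.Stmts3

/-!
The abstract theorem.
-/

set_option autoImplicit false
open scoped ComplexConjugate InnerProductSpace Topology
open Filter MeasureTheory NormedSpace

namespace Pool.Agent.H270R3.CT
open Pool.Agent.H712R5.BO

section aux

variable {H : Type} [NormedAddCommGroup H] [InnerProductSpace ℂ H] [CompleteSpace H]
  {ι : Type} [Fintype ι]

/-- a total sequence `w r = G_r v_j`, `‖G_r‖ ≤ 1` -/
theorem exists_w [TopologicalSpace.SeparableSpace H] {N : StarSubalgebra ℂ (H →L[ℂ] H)}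
    {u : unitary (H →L[ℂ] H)} {v : ι → H} (hD : Dt N u v) :
    ∃ w : ℤ → H, (∀ r, ∃ G ∈ N, ‖G‖ ≤ 1 ∧ ∃ j, w r = G (v j)) ∧
      ∀ x : H, (∀ r, ⟪x, w r⟫_ℂ = 0) → x = 0 := by
  let D : Set H := {y | ∃ G ∈ N, ‖G‖ ≤ 1 ∧ ∃ j, y = G (v j)}
  have hι : Nonempty ι := by
    by_contra h
    rw [not_nonempty_iff] at h
    have := hD.nm
    simp at this
  obtain ⟨j0⟩ := hι
  haveI : Nonempty D := ⟨⟨0, 0, N.zero_mem, by simp, j0, by simp⟩⟩
  haveI : SecondCountableTopology H := UniformSpace.secondCountable_of_separable H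
  refine ⟨fun r => (TopologicalSpace.denseSeq D r.natAbs : H), fun r => ?_, fun x hx => ?_⟩
  · exact (TopologicalSpace.denseSeq D r.natAbs).2
  · apply hD.tot
    have hall : ∀ y : D, ⟪x, (y : H)⟫_ℂ = 0 := by
      have hcl : IsClosed {y : D | ⟪x, (y : H)⟫_ℂ = 0} :=
        isClosed_eq (continuous_const.inner continuous_subtype_val) continuous_const
      have hd := TopologicalSpace.denseRange_denseSeq D
      intro y
      have : y ∈ closure (Set.range (TopologicalSpace.denseSeq D)) := hd y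
      exact closure_minimal (by
        rintro _ ⟨n, rfl⟩
        have := hx (n : ℤ)
        simpa using this) hcl this
    intro f hf j
    by_cases h0 : f = 0
    · rw [h0]; simp
    have hn : 0 < ‖f‖ := norm_pos_iff.2 h0
    have hmem : (((‖f‖⁻¹ : ℝ) : ℂ) • f) (v j) ∈ D := by
      refine ⟨((‖f‖⁻¹ : ℝ) : ℂ) • f, N.toSubalgebra.smul_mem hf _, ?_, j, rfl⟩
      rw [norm_smul, Complex.norm_real, norm_inv, norm_norm, inv_mul_cancel₀ hn.ne']
    have := hall ⟨_, hmem⟩
    simp only [_root_.smul_apply, inner_smul_right] at this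
    rcases mul_eq_zero.1 this with h | h
    · exfalso
      have h2 : (‖f‖⁻¹ : ℝ) = 0 := by exact_mod_cast h
      exact (inv_ne_zero hn.ne') h2
    · exact h

/-- convergence on a total sequence and boundedness imply strong convergence -/
theorem strong_lim (w : ℤ → H) (hw : ∀ x : H, (∀ r, ⟪x, w r⟫_ℂ = 0) → x = 0)
    (A : ℕ → (H →L[ℂ] H)) (R : ℝ) (hR : ∀ i, ‖A i‖ ≤ R)
    (hb : ∀ r : ℤ, ∃ y : H, Tendsto (fun i => A i (w r)) atTop (𝓝 y)) :
    ∃ X : H →L[ℂ] H, ∀ v, Tendsto (fun i => A i v) atTop (𝓝 (X v)) := by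
  let K : Submodule ℂ H :=
    { carrier := {v | ∃ w, Tendsto (fun i => A i v) atTop (𝓝 w)}
      add_mem' := by
        rintro v v' ⟨w, hw⟩ ⟨w', hw'⟩
        exact ⟨w + w', by simpa using hw.add hw'⟩
      zero_mem' := ⟨0, by simp⟩
      smul_mem' := by
        rintro c v ⟨w, hw⟩
        exact ⟨c • w, by simpa using hw.const_smul c⟩ }
  have hspan : Submodule.span ℂ (Set.range w) ≤ K := Submodule.span_le.2 (by
    rintro _ ⟨r, rfl⟩
    exact hb r)
  have hdense : (Submodule.span ℂ (Set.range w)).topologicalClosure = ⊤ := by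
    rw [Submodule.topologicalClosure_eq_top_iff, Submodule.eq_bot_iff]
    intro x hx
    apply hw
    intro r
    have h1 := Submodule.mem_orthogonal _ x |>.1 hx (w r) (Submodule.subset_span ⟨r, rfl⟩)
    rw [← inner_conj_symm, h1, map_zero]
  have hR0 : 0 ≤ R := (norm_nonneg _).trans (hR 0)
  have hall : ∀ v, ∃ w, Tendsto (fun i => A i v) atTop (𝓝 w) := by
    intro v
    apply cauchySeq_tendsto_of_complete
    rw [Metric.cauchySeq_iff]
    intro ε hε
    have hv : v ∈ closure (Submodule.span ℂ (Set.range w) : Set H) := by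
      rw [← Submodule.topologicalClosure_coe, hdense]
      trivial
    obtain ⟨u, hu, hdu⟩ := Metric.mem_closure_iff.1 hv (ε / (4 * (R + 1))) (by positivity)
    obtain ⟨w, hw⟩ := hspan hu
    have hc := hw.cauchySeq
    rw [Metric.cauchySeq_iff] at hc
    obtain ⟨n, hn⟩ := hc (ε / 2) (by positivity)
    refine ⟨n, fun i hi j hj => ?_⟩
    have h1 := hn i hi j hj
    rw [dist_eq_norm] at h1 hdu ⊢
    have h2 : ∀ l, ‖A l (v - u)‖ ≤ ε / 4 := by
      intro l
      calc ‖A l (v - u)‖ ≤ ‖A l‖ * ‖v - u‖ := (A l).le_opNorm _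
        _ ≤ (R + 1) * (ε / (4 * (R + 1))) := by
            have := hR l
            gcongr
            linarith
        _ = ε / 4 := by field_simp
    have h3 : A i v - A j v = A i (v - u) + (A i u - A j u) - A j (v - u) := by
      rw [map_sub, map_sub]
      abel
    rw [h3]
    calc ‖A i (v - u) + (A i u - A j u) - A j (v - u)‖
        ≤ ‖A i (v - u) + (A i u - A j u)‖ + ‖A j (v - u)‖ := norm_sub_le _ _
      _ ≤ ‖A i (v - u)‖ + ‖A i u - A j u‖ + ‖A j (v - u)‖ := by
          gcongr
          exact norm_add_le _ _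
      _ < ε := by
          have := h2 i
          have := h2 j
          linarith
  choose f hf using hall
  exact ⟨continuousLinearMapOfTendsto A (tendsto_pi_nhds.2 hf), fun v => hf v⟩

/-- the functional `∫ e_{-n}(θ) (⟨x, A(θ) y⟩) dθ` -/
noncomputable def FC (n : ℤ) (x y : H) : C(UnitAddCircle, H →L[ℂ] H) →L[ℂ] ℂ :=
  LinearMap.mkContinuous
    { toFun := fun A => ∫ θ, (fourier (-n) θ : ℂ) * ⟪x, A θ y⟫_ℂ ∂AddCircle.haarAddCircle
      map_add' := by
        intro A B
        rw [← integral_add]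
        · refine integral_congr_ae (Eventually.of_forall (fun θ => ?_))
          simp only [ContinuousMap.add_apply, _root_.add_apply, inner_add_right, mul_add]
        · exact int_C _ ((fourier (-n)).continuous.mul
            (continuous_const.inner (A.continuous.clm_apply continuous_const)))
        · exact int_C _ ((fourier (-n)).continuous.mul
            (continuous_const.inner (B.continuous.clm_apply continuous_const)))
      map_smul' := by
        intro c A
        rw [RingHom.id_apply, smul_eq_mul, ← integral_const_mul]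
        refine integral_congr_ae (Eventually.of_forall (fun θ => ?_))
        simp only [ContinuousMap.smul_apply, _root_.smul_apply, inner_smul_right]
        ring }
    (‖x‖ * ‖y‖) (by
      intro A
      have h1 : ∀ θ : UnitAddCircle, ‖(fourier (-n) θ : ℂ) * ⟪x, A θ y⟫_ℂ‖
          ≤ ‖x‖ * ‖y‖ * ‖A‖ := by
        intro θ
        have h2 : ‖A θ‖ ≤ ‖A‖ := A.norm_coe_le_norm θ
        have h4 : ‖(fourier (-n) θ : ℂ)‖ = 1 := by
          rw [fourier_apply]; exact Circle.norm_coe _
        rw [norm_mul, h4, one_mul]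
        calc ‖⟪x, A θ y⟫_ℂ‖ ≤ ‖x‖ * ‖A θ y‖ := norm_inner_le_norm _ _
          _ ≤ ‖x‖ * (‖A θ‖ * ‖y‖) := by
              gcongr
              exact (A θ).le_opNorm y
          _ ≤ ‖x‖ * (‖A‖ * ‖y‖) := by gcongr
          _ = ‖x‖ * ‖y‖ * ‖A‖ := by ring
      have h3 := norm_integral_le_of_norm_le_const (μ := AddCircle.haarAddCircle)
        (Eventually.of_forall h1)
      simpa using h3)

theorem FC_apply (n : ℤ) (x y : H) (A : C(UnitAddCircle, H →L[ℂ] H)) :
    FC n x y A = ∫ θ, (fourier (-n) θ : ℂ) * ⟪x, A θ y⟫_ℂ ∂AddCircle.haarAddCircle := rfl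

theorem FC_word (n m : ℤ) (x y : H) (A : C(UnitAddCircle, H →L[ℂ] H)) (F : H →L[ℂ] H)
    (hA : ∀ θ, A θ = (fourier m θ : ℂ) • F) :
    FC n x y A = (if m = n then 1 else 0) * ⟪x, F y⟫_ℂ := by
  rw [FC_apply]
  have h1 : ∀ θ : UnitAddCircle, (fourier (-n) θ : ℂ) * ⟪x, A θ y⟫_ℂ
      = (fourier (-n + m) θ : ℂ) * ⟪x, F y⟫_ℂ := by
    intro θ
    rw [hA, _root_.smul_apply, inner_smul_right, fourier_add]
    ring
  rw [integral_congr_ae (Eventually.of_forall h1), integral_mul_const]
  congr 1
  split_ifs with h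
  · subst h
    have : ∀ θ : UnitAddCircle, (fourier (-m + m) θ : ℂ) = 1 := by
      intro θ
      rw [neg_add_cancel, fourier_zero]
    simp only [this]
    simp
  · exact int_fourier _ (by omega)

/-- the Fourier coefficients intertwine `c` and `u^n c u^{-n}` -/
theorem FC_comm {N : StarSubalgebra ℂ (H →L[ℂ] H)}
    {u : unitary (H →L[ℂ] H)} {v : ι → H} (hD : Dt N u v) (n : ℤ) (c : H →L[ℂ] H)
    (hc : ∀ f ∈ N, c * f = f * c) (x y : H) (A : C(UnitAddCircle, H →L[ℂ] H)) (hA : A ∈ Alg N u) :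
    FC n x (c y) A = FC n (star (((u ^ n : unitary (H →L[ℂ] H)) : H →L[ℂ] H) * c *
      star ((u ^ n : unitary (H →L[ℂ] H)) : H →L[ℂ] H)) x) y A := by
  have h0 : ∀ A ∈ Wd N u, (FC n x (c y) - FC n (star (((u ^ n : unitary (H →L[ℂ] H)) : H →L[ℂ] H)
      * c * star ((u ^ n : unitary (H →L[ℂ] H)) : H →L[ℂ] H)) x) y) A = 0 := by
    intro A hA
    obtain ⟨m, f, hf, hAf⟩ := hA
    rw [_root_.sub_apply, sub_eq_zero, FC_word n m _ _ A _ hAf, FC_word n m _ _ A _ hAf]
    by_cases hmn : m = n
    · subst hmn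
      congr 1
      rw [ContinuousLinearMap.star_eq_adjoint, ContinuousLinearMap.adjoint_inner_left]
      congr 1
      set p : H →L[ℂ] H := ((u ^ m : unitary (H →L[ℂ] H)) : H →L[ℂ] H) with hp
      have hqp : star p * p = 1 := (Unitary.mem_iff.mp (u ^ m).2).1
      have hpq : p * star p = 1 := (Unitary.mem_iff.mp (u ^ m).2).2
      have hq : ((u ^ (-m) : unitary (H →L[ℂ] H)) : H →L[ℂ] H) = star p := by
        rw [zpow_neg]
        rfl
      have hg := hD.nz (-m) f hf
      rw [hq, star_star] at hg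
      have hcc := hc _ hg
      -- p c p* f p = f p c
      have e : p * c * star p * (f * p) = f * p * c := by
        calc p * c * star p * (f * p) = p * (c * (star p * f * p)) := by simp only [mul_assoc]
          _ = p * ((star p * f * p) * c) := by rw [hcc]
          _ = (p * star p) * (f * p * c) := by simp only [mul_assoc]
          _ = f * p * c := by rw [hpq, one_mul]
      have e2 := congrArg (fun T : H →L[ℂ] H => T y) e
      exact e2.symm
    · rw [if_neg hmn, zero_mul, zero_mul]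
  have := ext_Alg hD _ h0 A hA
  rw [_root_.sub_apply, sub_eq_zero] at this
  exact this

end aux

end Pool.Agent.H270R3.CT
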