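import Pool.Agent.H270R3.CT.FAbs
import Pool.Agent.H270R3.CT.M1
import Pool.Agent.H270R3.CT.M2
import Pool.Agent.H270R3.CT.M3
import Pool.Agent.H270R3.CT.M4
import Pool.Agent.H270R3.CT.M5
import Pool.Agent.H270R3.CT.M6

/-! Matrix weighted translations: assembly. -/

set_option autoImplicit false
open scoped ComplexConjugate InnerProductSpace Topology
open Filter MeasureTheory NormedSpace

namespace Pool.Agent.H270R3.CT

theorem star_nrm {d : ℕ} (A : Ed d →L[ℂ] Ed d) : ‖star A‖ = ‖A‖ := by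
  rw [ContinuousLinearMap.star_eq_adjoint]
  exact ContinuousLinearMap.adjoint.norm_map A

theorem star_cont {d : ℕ} : Continuous (fun A : Ed d →L[ℂ] Ed d => star A) := by
  simp only [ContinuousLinearMap.star_eq_adjoint]
  exact ContinuousLinearMap.adjoint.continuous

theorem strict_alg {H : Type} [NormedAddCommGroup H] [InnerProductSpace ℂ H] [CompleteSpace H]
    {δ : ℝ} (hδ : 0 < δ) : IsStrictlyPositive (algebraMap ℝ (H →L[ℂ] H) δ) := by
  have h1 : IsUnit (algebraMap ℝ (H →L[ℂ] H) δ) :=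
    (isUnit_iff_ne_zero.2 hδ.ne').map (algebraMap ℝ (H →L[ℂ] H))
  refine h1.isStrictlyPositive ?_
  rw [ContinuousLinearMap.nonneg_iff_isPositive, ContinuousLinearMap.isPositive_iff_complex]
  intro f
  have e : ⟪(algebraMap ℝ (H →L[ℂ] H) δ) f, f⟫_ℂ = ((δ * ‖f‖ ^ 2 : ℝ) : ℂ) := by
    rw [Algebra.algebraMap_eq_smul_one]
    show ⟪δ • f, f⟫_ℂ = _
    rw [← Complex.coe_smul, inner_smul_left, Complex.conj_ofReal, inner_self_eq_norm_sq_to_K]
    push_cast
    rfl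
  rw [e]
  constructor
  · rw [RCLike.re_eq_complex_re, Complex.ofReal_re]
  · rw [RCLike.re_eq_complex_re, Complex.ofReal_re]
    positivity

theorem int_coe {X : Type} [MeasurableSpace X] (μ : Measure X) (F : X → ℝ) :
    ((∫ x, F x ∂μ : ℝ) : ℂ) = ∫ x, ((F x : ℝ) : ℂ) ∂μ := integral_ofReal.symm

section
variable {X : Type} [MeasurableSpace X] (μ : Measure X) [IsProbabilityMeasure μ] (d : ℕ)

/-- the algebra of multiplication operators -/
noncomputable def NM : StarSubalgebra ℂ (L2d μ d →L[ℂ] L2d μ d) where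
  carrier := {A | ∃ (Φ : X → (Ed d →L[ℂ] Ed d)) (R : ℝ), MB d Φ R ∧ MulM μ d Φ A}
  mul_mem' := by
    rintro A B ⟨Φ, R, hΦ, hA⟩ ⟨Ψ, R', hΨ, hB⟩
    refine ⟨fun x => Φ x * Ψ x, R * R', ⟨hΦ.meas.mul hΨ.meas, fun x => ?_⟩,
      ((M1.t_M1 X μ d).2.1 Φ Ψ A B hA hB).1⟩
    exact (norm_mul_le _ _).trans (mul_le_mul (hΦ.bd x) (hΨ.bd x) (norm_nonneg _)
      ((norm_nonneg _).trans (hΦ.bd x)))
  add_mem' := by
    rintro A B ⟨Φ, R, hΦ, hA⟩ ⟨Ψ, R', hΨ, hB⟩
    refine ⟨fun x => Φ x + Ψ x, R + R', ⟨hΦ.meas.add hΨ.meas, fun x => ?_⟩,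
      ((M1.t_M1 X μ d).2.1 Φ Ψ A B hA hB).2⟩
    exact (norm_add_le _ _).trans (add_le_add (hΦ.bd x) (hΨ.bd x))
  algebraMap_mem' := by
    intro r
    refine ⟨fun _ => algebraMap ℂ (Ed d →L[ℂ] Ed d) r, ‖algebraMap ℂ (Ed d →L[ℂ] Ed d) r‖,
      ⟨stronglyMeasurable_const, fun _ => le_rfl⟩, fun f => ?_⟩
    rw [Algebra.algebraMap_eq_smul_one]
    show ((r • f : L2d μ d) : X → Ed d) =ᵐ[μ] _
    filter_upwards [Lp.coeFn_smul r f] with x hx
    rw [hx]
    simp [Algebra.algebraMap_eq_smul_one]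
  star_mem' := by
    rintro A ⟨Φ, R, hΦ, hA⟩
    exact ⟨fun x => star (Φ x), R, ⟨star_cont.comp_stronglyMeasurable hΦ.meas,
      fun x => by rw [star_nrm]; exact hΦ.bd x⟩, (M1.t_M1 X μ d).2.2.1 Φ R A hΦ hA⟩

theorem mem_NM (A : L2d μ d →L[ℂ] L2d μ d) : A ∈ NM μ d ↔
    ∃ (Φ : X → (Ed d →L[ℂ] Ed d)) (R : ℝ), MB d Φ R ∧ MulM μ d Φ A := Iff.rfl

end

section
variable {X : Type} [MeasurableSpace X] {μ : Measure X} [IsProbabilityMeasure μ] {d : ℕ}

theorem low_le {S : X ≃ᵐ X} (hS : MeasurePreserving S μ μ)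
    {Φ : X → (Ed d →L[ℂ] Ed d)} {R : ℝ} {T : L2d μ d →L[ℂ] L2d μ d} (hΦ : MB d Φ R)
    (hT : ∀ f : L2d μ d, (T f : X → Ed d) =ᵐ[μ] fun x => Φ x ((f : X → Ed d) (S x)))
    {g : X → ℝ} (hg : Measurable g) (hg1 : ∀ x, 0 < g x ∧ g x ≤ 1)
    (hgΦ : ∀ x w, g x * ‖w‖ ≤ ‖Φ x w‖) (k : ℕ) (A : L2d μ d →L[ℂ] L2d μ d)
    (hA : MulM μ d (fun x => (((∏ j ∈ Finset.range k, (g (S.symm^[j + 1] x)) ^ 2 : ℝ)) : ℂ) •
      (1 : Ed d →L[ℂ] Ed d)) A) : A ≤ star (T ^ k) * T ^ k := by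
  rw [ContinuousLinearMap.le_def, ContinuousLinearMap.isPositive_iff_complex]
  intro f
  have e1 : ⟪(star (T ^ k) * T ^ k) f, f⟫_ℂ = ((‖(T ^ k) f‖ ^ 2 : ℝ) : ℂ) := by
    show ⟪(star (T ^ k)) ((T ^ k) f), f⟫_ℂ = _
    rw [ContinuousLinearMap.star_eq_adjoint, ContinuousLinearMap.adjoint_inner_left,
      inner_self_eq_norm_sq_to_K]
    push_cast
    rfl
  have e2 : ⟪A f, f⟫_ℂ = ((∫ x, (∏ j ∈ Finset.range k, (g (S.symm^[j + 1] x)) ^ 2)
      * ‖(f : X → Ed d) x‖ ^ 2 ∂μ : ℝ) : ℂ) := by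
    rw [MeasureTheory.L2.inner_def, int_coe]
    refine integral_congr_ae ?_
    filter_upwards [hA f] with x hx
    rw [hx, _root_.smul_apply, ContinuousLinearMap.one_apply, inner_smul_left,
      Complex.conj_ofReal, inner_self_eq_norm_sq_to_K]
    push_cast
    rfl
  have e3 := t_M6 X μ d S hS Φ R T hΦ hT g hg hg1 hgΦ k f
  have e4 : ⟪(star (T ^ k) * T ^ k - A) f, f⟫_ℂ = ((‖(T ^ k) f‖ ^ 2
      - ∫ x, (∏ j ∈ Finset.range k, (g (S.symm^[j + 1] x)) ^ 2)
      * ‖(f : X → Ed d) x‖ ^ 2 ∂μ : ℝ) : ℂ) := by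
    rw [_root_.sub_apply, inner_sub_left, e1, e2]
    push_cast
    rfl
  rw [e4]
  constructor
  · rw [RCLike.re_eq_complex_re, Complex.ofReal_re]
  · rw [RCLike.re_eq_complex_re, Complex.ofReal_re]
    linarith

theorem low_tr {S : X ≃ᵐ X} (hS : MeasurePreserving S μ μ)
    {Φ : X → (Ed d →L[ℂ] Ed d)} {R : ℝ} {T : L2d μ d →L[ℂ] L2d μ d} (hΦ : MB d Φ R)
    (hT : ∀ f : L2d μ d, (T f : X → Ed d) =ᵐ[μ] fun x => Φ x ((f : X → Ed d) (S x)))
    {g : X → ℝ} (hg : Measurable g) (hg1 : ∀ x, 0 < g x ∧ g x ≤ 1)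
    (hgΦ : ∀ x w, g x * ‖w‖ ≤ ‖Φ x w‖) (hgi : Integrable (fun x => Real.log (g x)) μ)
    (v : Fin d → L2d μ d)
    (hsc : ∀ (h : X → ℝ) (R : ℝ) (A : L2d μ d →L[ℂ] L2d μ d), Measurable h → (∀ x, |h x| ≤ R) →
      MulM μ d (fun x => ((h x : ℝ) : ℂ) • (1 : Ed d →L[ℂ] Ed d)) A →
      ∑ j, ⟪v j, A (v j)⟫_ℂ = ((∫ x, h x ∂μ : ℝ) : ℂ)) (k : ℕ) (δ : ℝ) (hδ : 0 < δ) :
    k * (2 * ∫ x, Real.log (g x) ∂μ) ≤ (∑ j, ⟪v j, CFC.log (algebraMap ℝ
      (L2d μ d →L[ℂ] L2d μ d) δ + star (T ^ k) * T ^ k) (v j)⟫_ℂ).re := by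
  set G : X → ℝ := fun x => ∏ j ∈ Finset.range k, (g (S.symm^[j + 1] x)) ^ 2 with hG
  have hGm : Measurable G := Finset.measurable_prod _ fun j _ =>
    ((hg.comp (S.symm.measurable.iterate _)).pow_const 2)
  have hG0 : ∀ x, 0 < G x := fun x => Finset.prod_pos fun j _ => by
    have := (hg1 (S.symm^[j + 1] x)).1
    positivity
  have hG1 : ∀ x, G x ≤ 1 := fun x => Finset.prod_le_one
    (fun j _ => by positivity) fun j _ =>
      pow_le_one₀ (hg1 _).1.le (hg1 _).2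
  obtain ⟨A, hA, -⟩ := (M1.t_M1 X μ d).1 (fun x => ((G x : ℝ) : ℂ) • (1 : Ed d →L[ℂ] Ed d)) 1
    zero_le_one ⟨((Complex.measurable_ofReal.comp hGm).stronglyMeasurable).smul_const _,
      fun x => by
        rw [norm_smul, Complex.norm_real, Real.norm_eq_abs, abs_of_pos (hG0 x)]
        calc G x * ‖(1 : Ed d →L[ℂ] Ed d)‖ ≤ 1 * 1 := by
              gcongr
              · exact hG1 x
              · exact ContinuousLinearMap.norm_id_le
          _ = 1 := one_mul 1⟩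
  have hle := low_le hS hΦ hT hg hg1 hgΦ k A hA
  have hA0 : 0 ≤ A := by
    rw [ContinuousLinearMap.nonneg_iff_isPositive, ContinuousLinearMap.isPositive_iff_complex]
    intro f
    have e2 : ⟪A f, f⟫_ℂ = ((∫ x, G x * ‖(f : X → Ed d) x‖ ^ 2 ∂μ : ℝ) : ℂ) := by
      rw [MeasureTheory.L2.inner_def, int_coe]
      refine integral_congr_ae ?_
      filter_upwards [hA f] with x hx
      rw [hx, _root_.smul_apply, ContinuousLinearMap.one_apply, inner_smul_left,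
        Complex.conj_ofReal, inner_self_eq_norm_sq_to_K]
      push_cast
      rfl
    rw [e2]
    constructor
    · rw [RCLike.re_eq_complex_re, Complex.ofReal_re]
    · rw [RCLike.re_eq_complex_re, Complex.ofReal_re]
      exact integral_nonneg fun x => by
        have := hG0 x
        positivity
  set B : L2d μ d →L[ℂ] L2d μ d := algebraMap ℝ (L2d μ d →L[ℂ] L2d μ d) δ + A with hB
  have hBm : MulM μ d (fun x => ((δ + G x : ℝ) : ℂ) • (1 : Ed d →L[ℂ] Ed d)) B := by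
    intro f
    rw [hB, Algebra.algebraMap_eq_smul_one]
    have h1 : ((δ • (1 : L2d μ d →L[ℂ] L2d μ d) + A) f) = ((δ : ℂ)) • f + A f := by
      rw [_root_.add_apply, Complex.coe_smul]
      rfl
    rw [h1]
    filter_upwards [Lp.coeFn_add (((δ : ℂ)) • f) (A f), Lp.coeFn_smul ((δ : ℂ)) f, hA f]
      with x h2 h3 h4
    rw [h2, Pi.add_apply, h3, h4]
    simp only [Pi.smul_apply, _root_.smul_apply, ContinuousLinearMap.one_apply]
    rw [← add_smul]
    push_cast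
    rfl
  have hlogM := M5.t_M5 M1.t_M1 X μ d (fun x => δ + G x) δ (δ + 1) B hδ (measurable_const.add hGm)
    (fun x => ⟨by have := hG0 x; linarith, by have := hG1 x; linarith⟩) hBm
  have hbd : ∀ x, |Real.log (δ + G x)| ≤ max |Real.log δ| |Real.log (δ + 1)| := by
    intro x
    apply abs_le_max_abs_abs
    · exact Real.log_le_log hδ (by have := hG0 x; linarith)
    · exact Real.log_le_log (by have := hG0 x; linarith) (by have := hG1 x; linarith)
  have hlm : Measurable fun x => Real.log (δ + G x) := (measurable_const.add hGm).log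
  have hint := hsc (fun x => Real.log (δ + G x)) _ (CFC.log B) hlm hbd hlogM
  have hBpos : IsStrictlyPositive B :=
    IsStrictlyPositive.add_nonneg (strict_alg hδ) hA0
  have hBle : B ≤ algebraMap ℝ (L2d μ d →L[ℂ] L2d μ d) δ + star (T ^ k) * T ^ k := by
    rw [hB]
    exact add_le_add le_rfl hle
  have hll := CFC.log_le_log hBle hBpos
  have h1 : (∑ j, ⟪v j, CFC.log B (v j)⟫_ℂ).re ≤ (∑ j, ⟪v j, CFC.log (algebraMap ℝ
      (L2d μ d →L[ℂ] L2d μ d) δ + star (T ^ k) * T ^ k) (v j)⟫_ℂ).re := by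
    rw [Complex.re_sum, Complex.re_sum]
    refine Finset.sum_le_sum fun j _ => ?_
    rw [ContinuousLinearMap.le_def] at hll
    have h2 := hll.inner_nonneg_right (v j)
    rw [_root_.sub_apply, inner_sub_right] at h2
    have h3 := (Complex.le_def.1 h2).1
    simp only [Complex.zero_re, Complex.sub_re] at h3
    linarith
  refine le_trans ?_ h1
  rw [hint, Complex.ofReal_re]
  have hSi : ∀ j : ℕ, MeasurePreserving (S.symm^[j]) μ μ := fun j =>
    (hS.symm S).iterate j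
  have hii : ∀ j : ℕ, Integrable (fun x => Real.log (g (S.symm^[j] x))) μ := fun j =>
    (hSi j).integrable_comp_of_integrable hgi
  have hlogG : ∀ x, Real.log (G x) = ∑ j ∈ Finset.range k, 2 * Real.log (g (S.symm^[j + 1] x)) := by
    intro x
    rw [hG]
    simp only
    rw [Real.log_prod (fun j _ => by
      have := (hg1 (S.symm^[j + 1] x)).1
      positivity)]
    refine Finset.sum_congr rfl fun j _ => ?_
    rw [Real.log_pow]
    push_cast
    rfl
  have hGi : Integrable (fun x => Real.log (G x)) μ := by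
    simp only [hlogG]
    exact integrable_finset_sum _ fun j _ => (hii (j + 1)).const_mul 2
  have hGint : ∫ x, Real.log (G x) ∂μ = k * (2 * ∫ x, Real.log (g x) ∂μ) := by
    simp only [hlogG]
    rw [integral_finset_sum _ fun j _ => (hii (j + 1)).const_mul 2]
    have : ∀ j ∈ Finset.range k, ∫ x, 2 * Real.log (g (S.symm^[j + 1] x)) ∂μ
        = 2 * ∫ x, Real.log (g x) ∂μ := by
      intro j _
      rw [integral_const_mul]
      congr 1
      have hme : MeasurableEmbedding (S.symm^[j + 1]) := by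
        induction (j + 1) with
        | zero => exact MeasurableEmbedding.id
        | succ n ih =>
          rw [Function.iterate_succ]
          exact ih.comp S.symm.measurableEmbedding
      exact (hSi (j + 1)).integral_comp hme (fun x => Real.log (g x))
    rw [Finset.sum_congr rfl this, Finset.sum_const, Finset.card_range, nsmul_eq_mul]
  rw [← hGint]
  refine integral_mono hGi ?_ fun x => ?_
  · exact Integrable.of_bound hlm.aestronglyMeasurable _ (Eventually.of_forall fun x => by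
      rw [Real.norm_eq_abs]; exact hbd x)
  · exact Real.log_le_log (hG0 x) (by linarith)

end

theorem t_MAT : P_MAT := by
  intro X _ _ μ _ d hd S hS hap Φ R hΦm hΦR g hg hg0 hgΦ hgi T hT
  have hΦ : MB d Φ R := ⟨hΦm, hΦR⟩
  obtain ⟨v, hTV, hv1, htr, hsc, htot⟩ := M2.t_M2 M1.t_M1 X μ d hd
  obtain ⟨⟨u, hu⟩, hK⟩ := M3.t_M3 X μ d S hS
  obtain ⟨hfix, hconj⟩ := hK u hu
  haveI : Fact ((2 : ENNReal) ≠ ⊤) := ⟨by norm_num⟩
  have hD : Dt (NM μ d) u v := by
    refine ⟨?_, ?_, fun j => hfix v hTV j, hv1, ?_, ?_, ?_⟩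
    · rintro f ⟨Ψ, R', hΨ, hf⟩
      exact ⟨fun x => Ψ (S x), R', ⟨hΨ.meas.comp_measurable S.measurable, fun x => hΨ.bd _⟩,
        (hconj Ψ f hf).1⟩
    · rintro f ⟨Ψ, R', hΨ, hf⟩
      exact ⟨fun x => Ψ (S.symm x), R', ⟨hΨ.meas.comp_measurable S.symm.measurable,
        fun x => hΨ.bd _⟩, (hconj Ψ f hf).2⟩
    · rintro f ⟨Ψ, R', hΨ, hf⟩ g ⟨Ψ', R'', hΨ', hg⟩
      exact htr Ψ Ψ' (max R' R'') f g ⟨hΨ.meas, fun x => (hΨ.bd x).trans (le_max_left _ _)⟩
        ⟨hΨ'.meas, fun x => (hΨ'.bd x).trans (le_max_right _ _)⟩ hf hg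
    · intro w hw
      exact htot w fun Ψ R' A hΨ hA j => hw A ⟨Ψ, R', hΨ, hA⟩ j
    · intro n hn
      obtain ⟨c, hc1, hc2⟩ := M4.t_M4 X μ d hd S hS hap u hu n hn
      exact ⟨c, fun f ⟨Ψ, R', _, hf⟩ => hc1 Ψ f hf, hc2⟩
  have hTN : T * star (u : L2d μ d →L[ℂ] L2d μ d) ∈ NM μ d := by
    refine ⟨Φ, R, hΦ, fun f => ?_⟩
    have h1 := hT ((star (u : L2d μ d →L[ℂ] L2d μ d)) f)
    have h2 := hS.quasiMeasurePreserving.ae_eq_comp (hu.h2 f)
    filter_upwards [h1, h2] with x h3 h4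
    show (T ((star (u : L2d μ d →L[ℂ] L2d μ d)) f) : X → Ed d) x = _
    rw [h3]
    simp only [Function.comp_apply, MeasurableEquiv.symm_apply_apply] at h4
    rw [h4]
  have hg' : Measurable fun x => min (g x) 1 := hg.min measurable_const
  have hg1 : ∀ x, 0 < min (g x) 1 ∧ min (g x) 1 ≤ 1 := fun x =>
    ⟨lt_min (hg0 x) one_pos, min_le_right _ _⟩
  have hgΦ' : ∀ x w, min (g x) 1 * ‖w‖ ≤ ‖Φ x w‖ := fun x w =>
    (mul_le_mul_of_nonneg_right (min_le_left _ _) (norm_nonneg _)).trans (hgΦ x w)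
  have hgi' : Integrable (fun x => Real.log (min (g x) 1)) μ := by
    have : (fun x => Real.log (min (g x) 1)) = fun x => min (Real.log (g x)) 0 := by
      funext x
      rcases le_total (g x) 1 with h | h
      · rw [min_eq_left h, min_eq_left (Real.log_nonpos (hg0 x).le h)]
      · rw [min_eq_right h, Real.log_one, min_eq_right (Real.log_nonneg h)]
    rw [this]
    exact hgi.inf (integrable_const 0)
  obtain ⟨V, h1, h2, h3, h4⟩ := t_ABS (L2d μ d) (Fin d) (NM μ d) u v hD T hTN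
    ⟨2 * ∫ x, Real.log (min (g x) 1) ∂μ, fun k δ _ hδ =>
      low_tr hS hΦ hT hg' hg1 hgΦ' hgi' v hsc k δ hδ⟩
  exact ⟨V, h1, h2, h3, h4⟩

end Pool.Agent.H270R3.CT
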