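import Pool.Agent.H270R3.CT.Alg

/-!
Rotation invariance, evaluation of `Lg`, the trace of `log (δ + |T^k|²)` (adapted from `Pool.Agent.H417B`).
-/

set_option autoImplicit false
open scoped ComplexConjugate InnerProductSpace Topology
open Filter MeasureTheory NormedSpace

namespace Pool.Agent.H270R3.CT
open Pool.Agent.H712R5.BO

variable {H : Type} [NormedAddCommGroup H] [InnerProductSpace ℂ H] [CompleteSpace H]
  {ι : Type} [Fintype ι]

/-- rotation of the circle -/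
noncomputable def R3 (s : UnitAddCircle) :
    C(UnitAddCircle, H →L[ℂ] H) →⋆ₐ[ℂ] C(UnitAddCircle, H →L[ℂ] H) where
  toFun := fun A => ⟨fun θ => A (θ + s), A.continuous.comp (continuous_add_const s)⟩
  map_one' := rfl
  map_mul' := fun _ _ => rfl
  map_zero' := rfl
  map_add' := fun _ _ => rfl
  commutes' := fun _ => rfl
  map_star' := fun _ => rfl

theorem R3_apply (s θ : UnitAddCircle) (A : C(UnitAddCircle, H →L[ℂ] H)) :
    R3 s A θ = A (θ + s) := rfl

theorem R3_norm (s : UnitAddCircle) (A : C(UnitAddCircle, H →L[ℂ] H)) :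
    ‖R3 s A‖ ≤ ‖A‖ := by
  rw [ContinuousMap.norm_le _ (norm_nonneg _)]
  intro θ
  exact A.norm_coe_le_norm (θ + s)

theorem R3_cont (s : UnitAddCircle) :
    Continuous (R3 s : C(UnitAddCircle, H →L[ℂ] H) →⋆ₐ[ℂ] C(UnitAddCircle, H →L[ℂ] H)) :=
  AddMonoidHomClass.continuous_of_bound (R3 s) 1 fun A => by
    rw [one_mul]
    exact R3_norm s A

theorem fourier_shift (n : ℤ) (θ s : UnitAddCircle) :
    (fourier n (θ + s) : ℂ) = fourier n s * fourier n θ := by
  simp only [fourier_apply, smul_add, AddCircle.toCircle_add, Circle.coe_mul]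
  ring

theorem R3_word (N : StarSubalgebra ℂ (H →L[ℂ] H)) (u : unitary (H →L[ℂ] H)) (s : UnitAddCircle)
    {A : C(UnitAddCircle, H →L[ℂ] H)} (hA : A ∈ Wd N u) : R3 s A ∈ Wd N u := by
  obtain ⟨n, f, hf, h⟩ := hA
  refine ⟨n, (fourier n s : ℂ) • f, ?_, ?_⟩
  · exact N.toSubalgebra.smul_mem hf _
  · intro θ
    rw [R3_apply, h, fourier_shift, smul_mul_assoc, smul_smul, mul_comm]

theorem R3_mem (N : StarSubalgebra ℂ (H →L[ℂ] H)) (u : unitary (H →L[ℂ] H)) (s : UnitAddCircle)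
    {A : C(UnitAddCircle, H →L[ℂ] H)} (hA : A ∈ Alg N u) : R3 s A ∈ Alg N u := by
  have h1 : StarAlgebra.adjoin ℂ (Wd N u) ≤ (Alg N u).comap (R3 s) := by
    rw [StarAlgebra.adjoin_le_iff]
    intro B hB
    exact Wd_subset_Alg N u (R3_word N u s hB)
  have h2 : IsClosed (((Alg N u).comap (R3 s) :
      StarSubalgebra ℂ C(UnitAddCircle, H →L[ℂ] H)) : Set C(UnitAddCircle, H →L[ℂ] H)) :=
    (isClosed_Alg N u).preimage (R3_cont s)
  exact StarSubalgebra.topologicalClosure_minimal h1 h2 hA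

/-- rotation of the circle on `Alg` -/
noncomputable def rho (N : StarSubalgebra ℂ (H →L[ℂ] H)) (u : unitary (H →L[ℂ] H))
    (s : UnitAddCircle) : Alg N u →⋆ₐ[ℂ] Alg N u where
  toFun := fun A => ⟨R3 s A, R3_mem N u s A.2⟩
  map_one' := rfl
  map_mul' := fun _ _ => rfl
  map_zero' := rfl
  map_add' := fun _ _ => rfl
  commutes' := fun _ => rfl
  map_star' := fun _ => rfl

theorem rho_ev (N : StarSubalgebra ℂ (H →L[ℂ] H)) (u : unitary (H →L[ℂ] H))
    (s θ : UnitAddCircle) (A : Alg N u) :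
    evG N u θ (rho N u s A) = evG N u (θ + s) A := rfl

theorem rho_cont (N : StarSubalgebra ℂ (H →L[ℂ] H)) (u : unitary (H →L[ℂ] H))
    (s : UnitAddCircle) : Continuous (rho N u s) := by
  refine AddMonoidHomClass.continuous_of_bound (rho N u s) 1 fun A => ?_
  rw [one_mul]
  exact R3_norm s (A : C(UnitAddCircle, H →L[ℂ] H))

theorem rho_tau (N : StarSubalgebra ℂ (H →L[ℂ] H)) (u : unitary (H →L[ℂ] H))
    (s : UnitAddCircle) (v : ι → H) (A : Alg N u) :
    tauG N u v (rho N u s A) = tauG N u v A := by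
  rw [tauG_apply, tauG_apply]
  refine Finset.sum_congr rfl fun j _ => ?_
  simp only [rho_ev]
  exact integral_add_right_eq_self (μ := AddCircle.haarAddCircle)
    (fun θ => ⟪v j, evG N u θ A (v j)⟫_ℂ) s

theorem rho_n2 (N : StarSubalgebra ℂ (H →L[ℂ] H)) (u : unitary (H →L[ℂ] H))
    (s : UnitAddCircle) (v : ι → H) (A : Alg N u) :
    n2 (tauG N u v) (rho N u s A) = n2 (tauG N u v) A := by
  unfold n2
  rw [← map_star, ← map_mul, rho_tau]

theorem rho_Tt (N : StarSubalgebra ℂ (H →L[ℂ] H)) (u : unitary (H →L[ℂ] H))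
    (s : UnitAddCircle) (T : H →L[ℂ] H) (hT : T * star (u : H →L[ℂ] H) ∈ N) :
    rho N u s (TtG N u T hT) = (fourier 1 s : ℂ) • TtG N u T hT := by
  apply Subtype.ext
  apply ContinuousMap.ext
  intro θ
  show (fourier 1 (θ + s) : ℂ) • T = (fourier 1 s : ℂ) • ((fourier 1 θ : ℂ) • T)
  rw [smul_smul, fourier_shift]

theorem rt_fourier (M j : ℕ) :
    (fourier 1 (((j : ℝ) / (M : ℝ) : ℝ) : UnitAddCircle) : ℂ) = rt M j := by
  rw [fourier_coe_apply]
  unfold rt
  congr 1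
  push_cast
  ring

theorem rho_log (N : StarSubalgebra ℂ (H →L[ℂ] H)) (u : unitary (H →L[ℂ] H))
    (s : UnitAddCircle) (S : Alg N u) (hS : IsUnit S) :
    rho N u s (Lg S) = Lg (rho N u s S) := by
  unfold Lg CFC.log
  rw [← map_star, ← map_mul]
  have hu : IsUnit (star S * S) := hS.star.mul hS
  have hsa : IsSelfAdjoint (star S * S) := IsSelfAdjoint.star_mul_self S
  refine StarAlgHomClass.map_cfc (S := ℂ) (rho N u s) Real.log (star S * S) ?_
    (rho_cont N u s) hsa (hsa.map _)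
  refine Real.continuousOn_log.mono ?_
  intro x hx h0
  rw [Set.mem_singleton_iff] at h0
  subst h0
  exact spectrum.zero_notMem ℝ hu hx

/-- rotation invariance of `NN (exp(k z T))` -/
theorem NN_rot (N : StarSubalgebra ℂ (H →L[ℂ] H)) (u : unitary (H →L[ℂ] H)) (v : ι → H)
    (T : H →L[ℂ] H) (hT : T * star (u : H →L[ℂ] H) ∈ N) (k M j : ℕ) :
    NN (tauG N u v) (ex (k * rt M j) (TtG N u T hT)) =
      NN (tauG N u v) (ex (k : ℂ) (TtG N u T hT)) := by
  letI : NormedAlgebra ℚ (Alg N u) := NormedAlgebra.restrictScalars ℚ ℂ (Alg N u)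
  have h1 : ex (k * rt M j) (TtG N u T hT) =
      rho N u (((j : ℝ) / (M : ℝ) : ℝ) : UnitAddCircle) (ex (k : ℂ) (TtG N u T hT)) := by
    unfold ex
    rw [map_exp (rho N u (((j : ℝ) / (M : ℝ) : ℝ) : UnitAddCircle)) (rho_cont N u _), map_smul,
      rho_Tt, rt_fourier, smul_smul]
  unfold NN
  rw [h1, ← rho_log N u _ _ (by unfold ex; exact isUnit_exp _), rho_n2]

theorem ev_cont (N : StarSubalgebra ℂ (H →L[ℂ] H)) (u : unitary (H →L[ℂ] H))
    (θ : UnitAddCircle) : Continuous (evG N u θ) :=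
  (continuous_eval_const (F := C(UnitAddCircle, H →L[ℂ] H)) θ).comp continuous_subtype_val

theorem log_unit {A : Type} [CStarAlgebra A] (S : A) (hS : IsUnit S) :
    ContinuousOn Real.log (spectrum ℝ (star S * S)) := by
  refine Real.continuousOn_log.mono ?_
  intro x hx h0
  have h0' : x = 0 := h0
  subst h0'
  exact (spectrum.zero_notMem_iff ℝ).2 (hS.star.mul hS) hx

theorem ev_Lg (N : StarSubalgebra ℂ (H →L[ℂ] H)) (u : unitary (H →L[ℂ] H)) (T : H →L[ℂ] H)
    (hT : T * star (u : H →L[ℂ] H) ∈ N) (k : ℕ) (θ : UnitAddCircle) :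
    evG N u θ (Lg (ex (k : ℂ) (TtG N u T hT))) = Lg (ex (k : ℂ) ((fourier 1 θ : ℂ) • T)) ∧
    ‖Lg (ex (k : ℂ) ((fourier 1 θ : ℂ) • T))‖ ≤ 2 * k * ‖T‖ := by
  let _ : NormedAlgebra ℚ (Alg N u) := NormedAlgebra.restrictScalars ℚ ℂ (Alg N u)
  let _ : NormedAlgebra ℚ (H →L[ℂ] H) := NormedAlgebra.restrictScalars ℚ ℂ (H →L[ℂ] H)
  have e1 : evG N u θ (ex (k : ℂ) (TtG N u T hT)) = ex (k : ℂ) ((fourier 1 θ : ℂ) • T) := by
    unfold ex
    rw [NormedSpace.map_exp _ (ev_cont N u θ), map_smul, evG_TtG]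
  constructor
  · have hu : IsUnit (ex (k : ℂ) (TtG N u T hT)) := by
      unfold ex
      exact NormedSpace.isUnit_exp _
    unfold Lg CFC.log
    rw [StarAlgHomClass.map_cfc (evG N u θ) Real.log _ (log_unit _ hu) (ev_cont N u θ)
      (IsSelfAdjoint.star_mul_self _)
      ((IsSelfAdjoint.star_mul_self _).map (evG N u θ)), map_mul, map_star, e1]
  · have h1 := (t_B4v (H →L[ℂ] H)).2.2.2.2 ((k : ℂ) • ((fourier 1 θ : ℂ) • T))
    have h2 : ‖(k : ℂ) • ((fourier 1 θ : ℂ) • T)‖ = k * ‖T‖ := by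
      rw [norm_smul, norm_smul]
      have : ‖(fourier 1 θ : ℂ)‖ = 1 := by
        rw [fourier_apply]
        exact Circle.norm_coe _
      rw [this, one_mul]
      simp
    rw [h2, ← mul_assoc] at h1
    exact h1

theorem spec_low {A : Type} [CStarAlgebra A] (S : A) {δ : ℝ} (_hδ : 0 < δ) :
    ∀ x ∈ spectrum ℝ (algebraMap ℝ A δ + star S * S), δ ≤ x := by
  intro x hx
  rw [← spectrum.singleton_add_eq] at hx
  obtain ⟨y, hy, z, hz, rfl⟩ := hx
  rw [Set.mem_singleton_iff] at hy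
  subst hy
  have := spectrum_star_mul_self_nonneg z hz
  simp only
  linarith

theorem sa_low {A : Type} [CStarAlgebra A] (S : A) (δ : ℝ) :
    IsSelfAdjoint (algebraMap ℝ A δ + star S * S) :=
  (IsSelfAdjoint.algebraMap A (by exact IsSelfAdjoint.all δ)).add (IsSelfAdjoint.star_mul_self S)

theorem cont_low {A : Type} [CStarAlgebra A] (S : A) {δ : ℝ} (hδ : 0 < δ) :
    ContinuousOn Real.log (spectrum ℝ (algebraMap ℝ A δ + star S * S)) := by
  apply Real.continuousOn_log.mono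
  intro x hx
  have := spec_low S hδ x hx
  rw [Set.mem_compl_iff, Set.mem_singleton_iff]
  linarith

theorem ev_log (N : StarSubalgebra ℂ (H →L[ℂ] H)) (u : unitary (H →L[ℂ] H)) (T : H →L[ℂ] H)
    (hT : T * star (u : H →L[ℂ] H) ∈ N) (k : ℕ) (δ : ℝ)
    (hδ : 0 < δ) (θ : UnitAddCircle) :
    evG N u θ (CFC.log (algebraMap ℝ (Alg N u) δ +
      star ((TtG N u T hT) ^ k) * (TtG N u T hT) ^ k)) =
    CFC.log (algebraMap ℝ (H →L[ℂ] H) δ + star (T ^ k) * T ^ k) := by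
  unfold CFC.log
  have h0 : evG N u θ (algebraMap ℝ (Alg N u) δ +
      star ((TtG N u T hT) ^ k) * (TtG N u T hT) ^ k) =
      algebraMap ℝ (H →L[ℂ] H) δ + star (T ^ k) * T ^ k := by
    rw [map_add, map_mul, map_star, map_pow, evG_TtG]
    have h1 : evG N u θ (algebraMap ℝ (Alg N u) δ) = algebraMap ℝ (H →L[ℂ] H) δ := by
      rw [Algebra.algebraMap_eq_smul_one, Algebra.algebraMap_eq_smul_one]
      rfl
    rw [h1, smul_pow, star_smul, smul_mul_smul_comm]
    have h2 : star ((fourier 1 θ : ℂ) ^ k) * (fourier 1 θ : ℂ) ^ k = 1 := by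
      rw [star_pow, ← mul_pow]
      have h3 : star (fourier 1 θ : ℂ) * (fourier 1 θ : ℂ) = 1 := by
        rw [fourier_apply]
        have h4 : ‖((AddCircle.toCircle ((1 : ℤ) • θ) : Circle) : ℂ)‖ = 1 := Circle.norm_coe _
        have h5 := Complex.normSq_eq_conj_mul_self
          (z := ((AddCircle.toCircle ((1 : ℤ) • θ) : Circle) : ℂ))
        rw [Complex.star_def, ← h5, Complex.normSq_eq_norm_sq, h4]
        norm_num
      rw [h3, one_pow]
    rw [h2, one_smul]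
  rw [StarAlgHom.map_cfc (evG N u θ) Real.log _ (cont_low _ hδ) (ev_cont N u θ) (sa_low _ δ)
    (by rw [h0]; exact sa_low _ δ), h0]

theorem tau_log (N : StarSubalgebra ℂ (H →L[ℂ] H)) (u : unitary (H →L[ℂ] H)) (v : ι → H)
    (T : H →L[ℂ] H) (hT : T * star (u : H →L[ℂ] H) ∈ N) (k : ℕ) (δ : ℝ) (hδ : 0 < δ) :
    tauG N u v (CFC.log (algebraMap ℝ (Alg N u) δ + star ((TtG N u T hT) ^ k) * (TtG N u T hT) ^ k))
    = ∑ j, ⟪v j, CFC.log (algebraMap ℝ (H →L[ℂ] H) δ + star (T ^ k) * T ^ k) (v j)⟫_ℂ := by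
  rw [tauG_apply]
  refine Finset.sum_congr rfl fun j _ => ?_
  simp only [ev_log N u T hT k δ hδ]
  rw [integral_const]
  simp

theorem tau_T (N : StarSubalgebra ℂ (H →L[ℂ] H)) (u : unitary (H →L[ℂ] H)) (v : ι → H)
    (T : H →L[ℂ] H) (hT : T * star (u : H →L[ℂ] H) ∈ N) : tauG N u v (TtG N u T hT) = 0 := by
  rw [tauG_apply]
  refine Finset.sum_eq_zero fun j _ => ?_
  simp only [evG_TtG]
  have : ∀ θ : UnitAddCircle, ⟪v j, ((fourier 1 θ : ℂ) • T) (v j)⟫_ℂ
      = (fourier 1 θ : ℂ) * ⟪v j, T (v j)⟫_ℂ := by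
    intro θ
    rw [_root_.smul_apply, inner_smul_right]
  simp only [this]
  rw [integral_mul_const, int_fourier 1 one_ne_zero, zero_mul]

theorem norm_Tt (N : StarSubalgebra ℂ (H →L[ℂ] H)) (u : unitary (H →L[ℂ] H))
    (T : H →L[ℂ] H) (hT : T * star (u : H →L[ℂ] H) ∈ N) : ‖TtG N u T hT‖ ≤ ‖T‖ := by
  show ‖(TtG N u T hT : C(UnitAddCircle, H →L[ℂ] H))‖ ≤ ‖T‖
  rw [ContinuousMap.norm_le _ (norm_nonneg _)]
  intro θ
  show ‖(fourier 1 θ : ℂ) • T‖ ≤ ‖T‖
  rw [norm_smul]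
  have : ‖(fourier 1 θ : ℂ)‖ = 1 := by
    rw [fourier_apply]
    exact Circle.norm_coe _
  rw [this, one_mul]

end Pool.Agent.H270R3.CT
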